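import Mathlib

/-!
ROW Sq (square roots of integers and roots of unity; about 90 lines, Mathlib only).  PROOF.
`sqrt_nat`, induction on the number of prime factors of `D` (`Nat.recOnMul`-type induction, or strong induction with `Nat.minFac`): `D = 1`: `y = 1`. `D = q D'`, `q` prime: `ζ ^ q` is a primitive root of order `8 D'` (`IsPrimitiveRoot.pow`), so `D'` is a square in `F`; and
`q` is a square: if `q = 2`: `η = ζ ^ D` is a primitive root of order `8`, `η^4 = -1`, `(η + η⁻¹)^2 = η^2 + 2 + η^(-2) = 2` (as `η^2 + η^(-2) = η^(-2) (η^4 + 1) = 0`). If `q` is odd: `F` contains a primitive root of order `q` (`ζ ^ (8 D')`) and `i = ζ ^ (2 D)` with `i^2 = -1`. The quadratic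
Gauss sum (`gaussSum_sq` in `Mathlib/NumberTheory/GaussSum.lean`: for a nontrivial quadratic character `χ` of a finite field `R` with values in a domain `R'` and a primitive additive character `ψ`, `gaussSum χ ψ ^ 2 = χ (-1) * Fintype.card R`), with
`R = ZMod q`, `χ = (quadraticChar (ZMod q)).ringHomComp (Int.castRingHom F)` and `ψ` = the primitive additive character of the `q`-th root of unity (`AddChar.zmodChar`, `AddChar.zmodChar_primitive_of_primitive_root`) gives `g^2 = ± q`; in the minus case take `i g`.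
`sqrt_neg3`: `ω = ζ ^ (8 D)` is a primitive root of order `3`: `ω^2 + ω + 1 = 0`, `(2 ω + 1)^2 = -3`; `D` is a square by `sqrt_nat` for `ζ ^ 3`.
-/

set_option autoImplicit false
open scoped Classical

namespace H78N

theorem Sq_two {F : Type} [Field F] {η : F} (hη : IsPrimitiveRoot η 8) : ∃ y : F, y ^ 2 = 2 := by
  have h0 : η ≠ 0 := hη.ne_zero (by norm_num)
  have h1 : (η ^ 4) ^ 2 = 1 := by
    rw [← pow_mul]
    exact hη.pow_eq_one
  have h2 : η ^ 4 ≠ 1 := hη.pow_ne_one_of_pos_of_lt (by norm_num) (by norm_num)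
  have h3 : η ^ 4 = -1 := by
    rcases eq_or_eq_neg_of_sq_eq_sq (η ^ 4) 1 (by rw [h1, one_pow]) with h | h
    · exact absurd h h2
    · exact h
  refine ⟨η + η⁻¹, ?_⟩
  have h4 : η ^ 2 * (η⁻¹) ^ 2 = 1 := by
    rw [← mul_pow, mul_inv_cancel₀ h0, one_pow]
  have h5 : η ^ 2 + (η⁻¹) ^ 2 = 0 := by
    have h6 : (η ^ 2 + (η⁻¹) ^ 2) * η ^ 2 = 0 := by
      linear_combination h3 + h4
    exact (mul_eq_zero.1 h6).resolve_right (pow_ne_zero 2 h0)
  have h7 : η * η⁻¹ = 1 := mul_inv_cancel₀ h0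
  linear_combination h5 + 2 * h7

theorem Sq_odd {F : Type} [Field F] [CharZero F] {q : ℕ} (hq : q.Prime) (hq2 : q ≠ 2) {η i : F}
    (hη : IsPrimitiveRoot η q) (hi : i ^ 2 = -1) : ∃ y : F, y ^ 2 = q := by
  have hfact : Fact q.Prime := ⟨hq⟩
  have hne : NeZero q := ⟨hq.ne_zero⟩
  have hchar : ringChar (ZMod q) ≠ 2 := by
    rw [ZMod.ringChar_zmod_n]
    exact hq2
  obtain ⟨χ, hχ⟩ : ∃ χ : MulChar (ZMod q) F,
      χ = (quadraticChar (ZMod q)).ringHomComp (Int.castRingHom F) := ⟨_, rfl⟩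
  have hχ₂ : χ.IsQuadratic := by
    rw [hχ]
    exact (quadraticChar_isQuadratic (ZMod q)).comp _
  have hχ₁ : χ ≠ 1 := by
    obtain ⟨a, ha⟩ := quadraticChar_exists_neg_one' hchar
    refine MulChar.ne_one_iff.mpr ⟨a, ?_⟩
    rw [hχ, MulChar.ringHomComp_apply, ha]
    norm_num
  have h := gaussSum_sq hχ₁ hχ₂ (AddChar.zmodChar_primitive_of_primitive_root q hη)
  rw [ZMod.card] at h
  have h1 : χ (-1) = 1 ∨ χ (-1) = -1 := by
    rcases hχ₂ (-1) with h1 | h1 | h1
    · exfalso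
      have h2 : IsUnit (-1 : ZMod q) := isUnit_one.neg
      have h3 := h2.map χ
      rw [h1] at h3
      exact not_isUnit_zero h3
    · exact Or.inl h1
    · exact Or.inr h1
  rcases h1 with h1 | h1
  · rw [h1, one_mul] at h
    exact ⟨_, h⟩
  · rw [h1] at h
    refine ⟨i * gaussSum χ (AddChar.zmodChar q ((IsPrimitiveRoot.iff_def η q).mp hη).left), ?_⟩
    rw [mul_pow, h, hi]
    ring

theorem sqrt_nat {F : Type} [Field F] [CharZero F] {D : ℕ} (hD : D ≠ 0) {ζ : F} (hζ : IsPrimitiveRoot ζ (8 * D)) :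
    ∃ y : F, y ^ 2 = D := by
  induction D using Nat.strong_induction_on generalizing ζ with
  | _ D ih =>
    by_cases h1 : D = 1
    · exact ⟨1, by rw [h1]; norm_num⟩
    have hq : (D.minFac).Prime := Nat.minFac_prime h1
    obtain ⟨D', hD'⟩ := Nat.minFac_dvd D
    obtain ⟨q, hqd⟩ : ∃ q, q = D.minFac := ⟨_, rfl⟩
    rw [← hqd] at hD' hq
    have hD'0 : D' ≠ 0 := by
      rintro rfl
      rw [mul_zero] at hD'
      exact hD hD'
    have hpos : 0 < 8 * D := by omega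
    have hz1 : IsPrimitiveRoot (ζ ^ q) (8 * D') :=
      hζ.pow hpos (by rw [hD']; ring)
    have hlt : D' < D := by
      rw [hD']
      exact lt_mul_of_one_lt_left (Nat.pos_of_ne_zero hD'0) hq.one_lt
    obtain ⟨y, hy⟩ := ih D' hlt hD'0 hz1
    obtain ⟨z, hz⟩ : ∃ z : F, z ^ 2 = q := by
      by_cases h2 : q = 2
      · have h3 : IsPrimitiveRoot (ζ ^ D) 8 := hζ.pow hpos (by ring)
        obtain ⟨z, hz⟩ := Sq_two h3
        exact ⟨z, by rw [hz, h2]; norm_num⟩
      · have h3 : IsPrimitiveRoot (ζ ^ (8 * D')) q := hζ.pow hpos (by rw [hD']; ring)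
        have h4 : IsPrimitiveRoot (ζ ^ (2 * D)) 4 := hζ.pow hpos (by ring)
        have h5 : ((ζ ^ (2 * D)) ^ 2) ^ 2 = 1 := by
          rw [← pow_mul]
          exact h4.pow_eq_one
        have h6 : (ζ ^ (2 * D)) ^ 2 ≠ 1 := h4.pow_ne_one_of_pos_of_lt (by norm_num) (by norm_num)
        have h7 : (ζ ^ (2 * D)) ^ 2 = -1 := by
          rcases eq_or_eq_neg_of_sq_eq_sq ((ζ ^ (2 * D)) ^ 2) 1 (by rw [h5, one_pow]) with h | h
          · exact absurd h h6
          · exact h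
        exact Sq_odd hq h2 h3 h7
    refine ⟨z * y, ?_⟩
    rw [mul_pow, hy, hz, hD']
    push_cast
    ring

theorem sqrt_neg3 {F : Type} [Field F] [CharZero F] {D : ℕ} (hD : D ≠ 0) {ζ : F}
    (hζ : IsPrimitiveRoot ζ (24 * D)) : ∃ y : F, y ^ 2 = -3 * D := by
  have hpos : 0 < 24 * D := by omega
  obtain ⟨y, hy⟩ := sqrt_nat hD (hζ.pow hpos (by ring : 24 * D = 3 * (8 * D)))
  have h3 : IsPrimitiveRoot (ζ ^ (8 * D)) 3 := hζ.pow hpos (by ring)
  obtain ⟨ω, hω⟩ : ∃ ω, ω = ζ ^ (8 * D) := ⟨_, rfl⟩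
  rw [← hω] at h3
  have h4 : ω ≠ 1 := h3.ne_one (by norm_num)
  have h5 : ω ^ 2 + ω + 1 = 0 := by
    have h6 : (ω - 1) * (ω ^ 2 + ω + 1) = 0 := by
      linear_combination h3.pow_eq_one
    exact (mul_eq_zero.1 h6).resolve_left (sub_ne_zero.2 h4)
  refine ⟨(2 * ω + 1) * y, ?_⟩
  rw [mul_pow, hy]
  linear_combination 4 * (D : F) * h5

end H78N
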