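import Pool.Agent.H78.MN.Ka

/-!
ROW Ku (the Kummer character is unramified; about 220 lines).  Use only the STATEMENTS of Ka.  PROOF.  `ζ = algebraMap F N z`, `X = algebraMap F N (algebraMap L F x)`, `r^3 = X`. `mul`: `kum_mul`.
`unr`: `P` a nonzero prime ideal of `𝓞 N`, `W : HeightOneSpectrum (𝓞 N)` with `W.asIdeal = P`, `v = W.valuation N`; `w : HeightOneSpectrum (𝓞 L)` with `w.asIdeal = P.under (𝓞 L)` (`L → F → N`: make `N` an `L`-algebra by the composite;
`Ideal.IsIntegral.comap_ne_bot`; see `pair_K` in `Pool/Agent/H78/MG/Pb.lean`): `v (x) = (w.valuation L x)^e`, `e ≥ 1` (`HeightOneSpectrum.valuation_liesOver`).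
(A) `u` fixes `F`, `InI P u`. For `y : N` with `v y ≤ 1`: `v (u y - y) < 1`. Proof: `HeightOneSpectrum.exists_primeCompl_mul_eq_of_integer` gives `y * c = b`, `b, c ∈ 𝓞 N`, `c ∉ P`, `v c = 1`. `u b = b + b'`, `u c = c + c'`, `b', c' ∈ P`;
`u y - y = (b + b')/(c + c') - b/c = (b' c - b c') / (c (c + c'))`, `v (c + c') = 1`, `v (b' c - b c') < 1`.
(B) Suppose `a u ≠ 0`; `u r = ζ^j r`, `j = 1` or `2`. `(1 - ζ)(1 - ζ^2) = 3`.
 Case `3 ∉ P`: `v 3 = 1`, so `v (ζ^j - 1) = 1` (both factors are `≤ 1`, product `1`). `log (v X)` is divisible by three (`h3` and the power `e`), so there is `c : N`, `c ≠ 0`, with `v c^3 = v X`; we need `c ∈ F`: take `c` = the image of `c0 : L` with `(w.valuation L c0)^3 = w.valuation L x`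
 (`w.valuation_surjective`). `ρ = r / c`: `v ρ^3 = 1`, so `v ρ = 1`; `u ρ = ζ^j ρ` (`u` fixes `c`), `v (u ρ - ρ) = v (ζ^j - 1) v ρ = 1`, contradiction to (A).
 Case `3 ∈ P`: `3 ∈ w.asIdeal`: `hloc` gives `t`. `T` = the image of `t` in `N`, `lam = ζ - 1`, `lam^2 = -3 ζ` (from `ζ^2 + ζ + 1 = 0`), so `v lam^2 = v 3` and `v (X T^3 - 1)^2 ≤ v 27 = v lam^6`, `v (X T^3 - 1) ≤ v lam^3 < 1`. `ρ = r T`, `ρ^3 = X T^3`, so `v ρ = 1`.
 `η = (ρ - 1) / lam`: `lam^3 η (η - 1) (η + ζ^2) = ρ^3 - 1` (as `ρ - ζ = lam (η - 1)`, `ρ - ζ^2 = lam (η + ζ^2)... check: ρ - ζ^2 = lam η + 1 - ζ^2 = lam (η - (1 + ζ)) = lam (η + ζ^2)`), so `v (η (η - 1) (η + ζ^2)) ≤ 1`, so `v η ≤ 1` (if `v η > 1` then all three factors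
 have valuation `v η > 1`: `Valuation.map_add_eq_of_lt_right`). `u η - η = (ζ^j - 1) ρ / lam`, and `(ζ^j - 1) / lam = 1` or `ζ + 1 = -ζ^2`, of valuation one: `v (u η - η) = 1`, contradiction to (A).
-/

set_option autoImplicit false
open scoped Classical

open IsDedekindDomain NumberField H68TL

namespace H78N

/-- (A) elements of the inertia group -/
private theorem Ku_in {N : Type} [Field N] [NumberField N] (W : HeightOneSpectrum (𝓞 N)) {u : N ≃+* N}
    (hu : InI W.asIdeal u) {y : N} (hy : W.valuation N y ≤ 1) : W.valuation N (u y - y) < 1 := by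
  obtain ⟨b, ⟨c, hc⟩, hbc⟩ := HeightOneSpectrum.exists_primeCompl_mul_eq_of_integer W y hy
  obtain ⟨b', hb', hub⟩ := hu b
  obtain ⟨c', hc', huc⟩ := hu c
  have hvc : W.valuation N (algebraMap (𝓞 N) N c) = 1 := W.valuation_eq_one_iff_notMem.2 hc
  have hvb' : W.valuation N (algebraMap (𝓞 N) N b') < 1 := (W.valuation_lt_one_iff_mem b').2 hb'
  have hvc' : W.valuation N (algebraMap (𝓞 N) N c') < 1 := (W.valuation_lt_one_iff_mem c').2 hc'
  have hyc : y * (algebraMap (𝓞 N) N c) = algebraMap (𝓞 N) N b := hbc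
  have hub' : u (algebraMap (𝓞 N) N b) = algebraMap (𝓞 N) N b + algebraMap (𝓞 N) N b' := hub
  have huc' : u (algebraMap (𝓞 N) N c) = algebraMap (𝓞 N) N c + algebraMap (𝓞 N) N c' := huc
  have h1 : u y * (algebraMap (𝓞 N) N c + algebraMap (𝓞 N) N c') =
      algebraMap (𝓞 N) N b + algebraMap (𝓞 N) N b' := by
    rw [← huc', ← map_mul, hyc, hub']
  have h2 : (u y - y) * (algebraMap (𝓞 N) N c + algebraMap (𝓞 N) N c') =
      algebraMap (𝓞 N) N b' - y * algebraMap (𝓞 N) N c' := by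
    rw [sub_mul, h1, mul_add, hyc]
    ring
  have h3 : W.valuation N (algebraMap (𝓞 N) N c + algebraMap (𝓞 N) N c') = 1 := by
    rw [← hvc]
    exact Valuation.map_add_eq_of_lt_left _ (by rw [hvc]; exact hvc')
  have h4 : W.valuation N (algebraMap (𝓞 N) N b' - y * algebraMap (𝓞 N) N c') < 1 := by
    refine Valuation.map_sub_lt _ hvb' ?_
    rw [map_mul]
    exact mul_lt_one_of_nonneg_of_lt_one_right hy zero_le hvc'
  have h5 := congrArg (W.valuation N) h2
  rw [map_mul, h3, mul_one] at h5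
  rw [h5]
  exact h4

/-- the ring identities -/
private theorem Ku_id {N : Type} [Field N] {ω η ρ lam : N} (hω : ω ^ 2 + ω + 1 = 0) (hl : lam = ω - 1)
    (hη : ρ = lam * η + 1) : lam ^ 3 * (η * (η - 1) * (η + ω ^ 2)) = ρ ^ 3 - 1 := by
  subst hl hη
  linear_combination ((ω - 1) ^ 2 * η ^ 2 * (ω - 2) + (ω - 1) * η * (-ω ^ 2 + 3 * ω - 3)) * hω

private theorem Ku_pow {x y : WithZero (Multiplicative ℤ)} {n : ℕ} (hn : n ≠ 0) (h : x ^ n = y ^ n) : x = y :=
  (pow_left_inj₀ zero_le zero_le hn).1 h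

private theorem Ku_one {x : WithZero (Multiplicative ℤ)} {n : ℕ} (hn : n ≠ 0) (h : x ^ n = 1) : x = 1 :=
  Ku_pow hn (h.trans (one_pow n).symm)

/-- the case `3 ∉ P` -/
private theorem Ku_tame {N : Type} [Field N] [NumberField N] (W : HeightOneSpectrum (𝓞 N)) {u : N ≃+* N}
    (hu : InI W.asIdeal u) {ω r c : N} (hω : ω ^ 2 + ω + 1 = 0) (hr : r ≠ 0) (hur : u r = ω * r)
    (huc : u c = c) (hc : W.valuation N c = W.valuation N r) (h3 : W.valuation N 3 = 1) : False := by
  have hω3 : ω ^ 3 = 1 := by linear_combination (ω - 1) * hω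
  have hvω : W.valuation N ω = 1 := Ku_one three_ne_zero (by rw [← map_pow, hω3, map_one])
  have hvl : W.valuation N (ω - 1) = 1 := by
    refine Ku_one two_ne_zero ?_
    have h1 : (ω - 1) ^ 2 = -(3 * ω) := by linear_combination hω
    rw [← map_pow, h1, Valuation.map_neg, map_mul, h3, hvω, one_mul]
  have hvr : W.valuation N r ≠ 0 := (Valuation.ne_zero_iff _).2 hr
  have hvρ : W.valuation N (r / c) = 1 := by
    rw [map_div₀, hc, div_self hvr]
  have h2 := Ku_in W hu hvρ.le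
  have h4 : u (r / c) - r / c = (ω - 1) * (r / c) := by
    rw [map_div₀, hur, huc]
    ring
  rw [h4, map_mul, hvl, hvρ, one_mul] at h2
  exact lt_irrefl _ h2

/-- the case `3 ∈ P` -/
private theorem Ku_wild {N : Type} [Field N] [NumberField N] (W : HeightOneSpectrum (𝓞 N)) {u : N ≃+* N}
    (hu : InI W.asIdeal u) {ω r T : N} (hω : ω ^ 2 + ω + 1 = 0) (hur : u r = ω * r)
    (huω : u ω = ω) (huT : u T = T) (h3 : W.valuation N 3 < 1)
    (hT : W.valuation N ((r * T) ^ 3 - 1) ^ 2 ≤ W.valuation N 27) : False := by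
  have hω3 : ω ^ 3 = 1 := by linear_combination (ω - 1) * hω
  have hvω : W.valuation N ω = 1 := Ku_one three_ne_zero (by rw [← map_pow, hω3, map_one])
  have hl0 : ω - 1 ≠ 0 := by
    intro h
    have h1 : ω = 1 := by linear_combination h
    rw [h1] at hω
    norm_num at hω
  have hvl : W.valuation N (ω - 1) ^ 2 = W.valuation N 3 := by
    have h1 : (ω - 1) ^ 2 = -(3 * ω) := by linear_combination hω
    rw [← map_pow, h1, Valuation.map_neg, map_mul, hvω, mul_one]
  have hvl0 : W.valuation N (ω - 1) ≠ 0 := (Valuation.ne_zero_iff _).2 hl0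
  have hvl1 : W.valuation N (ω - 1) < 1 := by
    by_contra h
    rw [not_lt] at h
    have h1 : 1 ≤ W.valuation N (ω - 1) ^ 2 := one_le_pow₀ h
    rw [hvl] at h1
    exact absurd h1 (not_le.2 h3)
  have h27 : W.valuation N 27 = (W.valuation N (ω - 1) ^ 3) ^ 2 := by
    have h1 : (27 : N) = 3 ^ 3 := by norm_num
    rw [h1, map_pow, ← hvl, ← pow_mul, ← pow_mul]
  have hle : W.valuation N ((r * T) ^ 3 - 1) ≤ W.valuation N (ω - 1) ^ 3 := by
    rw [h27] at hT
    exact (pow_le_pow_iff_left₀ zero_le zero_le two_ne_zero).1 hT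
  have hlt : W.valuation N ((r * T) ^ 3 - 1) < 1 :=
    lt_of_le_of_lt hle (pow_lt_one₀ zero_le hvl1 three_ne_zero)
  have hvρ : W.valuation N (r * T) = 1 := by
    refine Ku_one three_ne_zero ?_
    rw [← map_pow]
    have h1 : (r * T) ^ 3 = 1 + ((r * T) ^ 3 - 1) := by ring
    rw [h1]
    have h2 := Valuation.map_add_eq_of_lt_left (W.valuation N) (x := 1) (y := (r * T) ^ 3 - 1)
      (by rw [map_one]; exact hlt)
    rw [map_one] at h2
    exact h2
  obtain ⟨η, hη⟩ : ∃ η : N, η = (r * T - 1) / (ω - 1) := ⟨_, rfl⟩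
  have hρη : r * T = (ω - 1) * η + 1 := by
    rw [hη]
    field_simp
    ring
  have hid := Ku_id hω rfl hρη
  have hv1 : W.valuation N (η * (η - 1) * (η + ω ^ 2)) ≤ 1 := by
    have h1 := congrArg (W.valuation N) hid
    rw [map_mul, map_pow] at h1
    have h2 : W.valuation N (ω - 1) ^ 3 * W.valuation N (η * (η - 1) * (η + ω ^ 2)) ≤
        W.valuation N (ω - 1) ^ 3 * 1 := by
      rw [h1, mul_one]
      exact hle
    exact le_of_mul_le_mul_left h2 (pow_pos (zero_lt_iff.2 hvl0) 3)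
  have hvη : W.valuation N η ≤ 1 := by
    by_contra h
    rw [not_le] at h
    have h1 : W.valuation N (η - 1) = W.valuation N η := by
      rw [sub_eq_add_neg]
      exact Valuation.map_add_eq_of_lt_left (W.valuation N) (x := η) (y := (-1 : N))
        (by rw [Valuation.map_neg, map_one]; exact h)
    have h2 : W.valuation N (η + ω ^ 2) = W.valuation N η := by
      exact Valuation.map_add_eq_of_lt_left (W.valuation N) (x := η) (y := ω ^ 2)
        (by rw [map_pow, hvω, one_pow]; exact h)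
    rw [map_mul, map_mul, h1, h2] at hv1
    have h4 : 1 < W.valuation N η * W.valuation N η * W.valuation N η :=
      one_lt_mul'' (one_lt_mul'' h h) h
    exact absurd hv1 (not_le.2 h4)
  have h5 := Ku_in W hu hvη
  have h6 : u η - η = r * T := by
    rw [hη, map_div₀, map_sub, map_mul, map_sub, map_one, hur, huT, huω]
    field_simp
    ring
  rw [h6, hvρ] at h5
  exact lt_irrefl _ h5

theorem kum_unr {L F N : Type} [Field L] [NumberField L] [Field F] [NumberField F] [Field N] [NumberField N]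
    [Algebra L F] [Algebra F N] {z : F} {r : N} (hz : z ^ 2 + z + 1 = 0) (hr : r ≠ 0) {x : L}
    (hx : r ^ 3 = algebraMap F N (algebraMap L F x))
    (h3 : ∀ w : HeightOneSpectrum (𝓞 L), (3 : ℤ) ∣ WithZero.log (w.valuation L x))
    (hloc : ∀ w : HeightOneSpectrum (𝓞 L), (3 : 𝓞 L) ∈ w.asIdeal →
      ∃ t : L, w.valuation L (x * t ^ 3 - 1) ^ 2 ≤ w.valuation L 27)
    {a : (N ≃+* N) → ZMod 3} (ha : Kum F z r a) : UnrC 3 F a := by
  refine ⟨fun u v hu hv => kum_mul hz hr ha u v hu hv, fun P hP hP0 u hu hI => ?_⟩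
  by_contra hau
  let _ : Algebra L N := ((algebraMap F N).comp (algebraMap L F)).toAlgebra
  have hLN : ∀ y : L, algebraMap L N y = algebraMap F N (algebraMap L F y) := fun _ => rfl
  let W : HeightOneSpectrum (𝓞 N) := ⟨P, hP, hP0⟩
  have hbot : W.asIdeal.under (𝓞 L) ≠ ⊥ := Ideal.IsIntegral.comap_ne_bot _ W.ne_bot
  let w : HeightOneSpectrum (𝓞 L) := ⟨W.asIdeal.under (𝓞 L), inferInstance, hbot⟩
  have hlo : W.asIdeal.LiesOver w.asIdeal := ⟨rfl⟩
  have hval := fun y : L => HeightOneSpectrum.valuation_liesOver (K := L) N w W y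
  set e := w.asIdeal.ramificationIdx' W.asIdeal with he
  have hx0 : x ≠ 0 := by
    intro h
    rw [h, map_zero, map_zero] at hx
    exact hr (pow_eq_zero_iff three_ne_zero |>.1 hx)
  -- the root of unity `ω`
  have hζ : (algebraMap F N z) ^ 2 + algebraMap F N z + 1 = 0 := by
    rw [← map_pow, ← map_add, ← map_one (algebraMap F N), ← map_add, hz, map_zero]
  have hj : (a u).val = 1 ∨ (a u).val = 2 := by
    have h1 := ZMod.val_lt (a u)
    have h2 : (a u).val ≠ 0 := by rwa [Ne, ZMod.val_eq_zero]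
    omega
  obtain ⟨y, hyω⟩ : ∃ y : F, y = z ^ (a u).val := ⟨_, rfl⟩
  have hω : (algebraMap F N y) ^ 2 + algebraMap F N y + 1 = 0 := by
    rw [hyω, map_pow]
    rcases hj with h | h <;> rw [h]
    · rw [pow_one]
      exact hζ
    · linear_combination ((algebraMap F N z) ^ 2 - algebraMap F N z + 1) * hζ
  have hur : u r = algebraMap F N y * r := by
    rw [ha u hu, hyω, map_pow]
  have hfix : ∀ t : L, u (algebraMap L N t) = algebraMap L N t := fun t => hu (algebraMap L F t)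
  by_cases h3P : W.valuation N 3 = 1
  · -- the tame case
    obtain ⟨k, hk⟩ := h3 w
    have hwx : w.valuation L x ≠ 0 := (Valuation.ne_zero_iff _).2 hx0
    obtain ⟨c, hc⟩ := w.valuation_surjective L (WithZero.exp k)
    have hc3 : w.valuation L c ^ 3 = w.valuation L x := by
      rw [hc, ← WithZero.exp_nsmul, ← WithZero.exp_log hwx, hk]
      congr 1
    refine Ku_tame W hI hω hr hur (hfix c) ?_ h3P
    refine Ku_pow three_ne_zero ?_
    have h5 : W.valuation N r ^ 3 = W.valuation N (algebraMap L N x) := by rw [← map_pow, hx, hLN]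
    rw [h5, ← hval c, ← hval x, ← hc3, ← pow_mul, ← pow_mul, mul_comm]
  · -- the wild case
    have hcc : W.valuation N (algebraMap (𝓞 N) N 3) = W.valuation N 3 :=
      congrArg _ (map_ofNat (algebraMap (𝓞 N) N) 3)
    have h31 : W.valuation N 3 < 1 :=
      lt_of_le_of_ne (le_of_eq_of_le hcc.symm (W.valuation_le_one (K := N) 3)) h3P
    have h3w : (3 : 𝓞 L) ∈ w.asIdeal := by
      change algebraMap (𝓞 L) (𝓞 N) 3 ∈ W.asIdeal
      rw [map_ofNat]
      exact (W.valuation_lt_one_iff_mem (K := N) 3).1 (lt_of_eq_of_lt hcc h31)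
    obtain ⟨t, ht⟩ := hloc w h3w
    refine Ku_wild W hI (T := algebraMap L N t) hω hur (hu y) (hfix t) h31 ?_
    have h1 := pow_le_pow_left₀ zero_le ht e
    have h2 : (r * algebraMap L N t) ^ 3 - 1 = algebraMap L N (x * t ^ 3 - 1) := by
      rw [mul_pow, hx, ← hLN, map_sub, map_mul, map_pow, map_one]
    have h4 : (27 : N) = algebraMap L N 27 := by rw [map_ofNat]
    rw [h2, h4, ← hval, ← hval, ← pow_mul, mul_comm e 2, pow_mul]
    exact h1

end H78N
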