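import Pool.Agent.H78.MN.Kb
import Pool.Agent.H78.MN.Ku
import Pool.Agent.H68.TL.Ccl

/-!
ROW Cg (no new cubes over the real field `L`; about 150 lines).  Use only the STATEMENTS of Ka, Kb, Ku and `H78M.down_K` (`Pool/Agent/H78/MG/Pb.lean`).  PROOF.
Let `x : L` satisfy the hypotheses, `x' = algebraMap L F x ≠ 0`. `N` := a number field, Galois over `ℚ`, with an `F`-algebra structure and `r : N`, `r^3 = algebraMap F N x'` (take `Ω = AlgebraicClosure F`, `r0 : Ω` with `r0^3 = x'` (`IsAlgClosed.exists_pow_nat_eq`), `N` := the normal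
closure over `ℚ` in `Ω` of `IntermediateField.adjoin ℚ (range (algebraMap F Ω) ∪ {r0})` (finite dimensional; `IntermediateField.normalClosure`, `normalClosure.is_finiteDimensional`; Galois in characteristic zero); or `IntermediateField.adjoin F {r0}` first and then its normal closure over `ℚ`).
`z : F` with `z^2 + z + 1 = 0` (`hzF`). `a` from `kum_exists`, `kum_unr` gives `UnrC 3 F a`.
`J z = z^2`: choose an embedding `φ : F →+* ℂ`; `φ (J z) = conj (φ z)`; `φ z` is a root of `T^2 + T + 1`, not real (a real `c` has `c^2 + c + 1 > 0`), `conj (φ z)` is a root too, so it is `φ z` or `(φ z)^2 = -1 - φ z`; it is not `φ z` (not real). Injectivity of `φ`.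
`J x' = x'`: `φ ∘ algebraMap L F` is a real embedding, `L` totally real (see Ce / `Pool/Agent/H68/TL/Ccl.lean`).
Norm: `P h := True`, `PairK K Km L F P` from `S`: `cov` is `S.cov`; `res`: `g : F ≃ₐ[Km] F`, `h = (g.restrictScalars K).restrictNormal L` (see `noNewMinus_of_sn` in `Mi.lean`). `∏_{h : L ≃ₐ[K] L} h x = algebraMap K L (Algebra.norm K x) = (algebraMap K L y)^3` (`Algebra.norm_eq_prod_automorphisms`).
`H78M.prod_K` (with `l = 3`) gives `hN` for `kum_norm`: `algebraMap Km F (Algebra.norm Km x') = c^3`. `IsGalois Km F`: `IsGalois.tower_top_of_isGalois K Km F`.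
`HU N a (kum_unr ..) (kum_J ..) (kum_norm ..)` gives `a u = 0` for all `u` fixing `F`, `kum_zero`: `r = algebraMap F N y`, `y^3 = x'`. `H78M.down_K` (with `hab = S.comm`, `hn`, `hμ`, `P = True`) gives the claim.
-/

set_option autoImplicit false
open scoped Classical

open IsDedekindDomain NumberField H68TL Finset

namespace H78N

/-- a Galois number field containing a cube root -/
theorem Cg_exists_N {F : Type} [Field F] [NumberField F] {l : ℕ} (hl : l ≠ 0) (d : F) :
    ∃ (N : Type) (_ : Field N) (_ : NumberField N) (_ : Algebra F N) (_ : IsGalois ℚ N) (r : N),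
      r ^ l = algebraMap F N d := by
  obtain ⟨r, hr⟩ := IsAlgClosed.exists_pow_nat_eq (algebraMap F (AlgebraicClosure F) d) (Nat.pos_of_ne_zero hl)
  let ι : F →ₐ[ℚ] AlgebraicClosure F := (algebraMap F (AlgebraicClosure F)).toRatAlgHom
  have hint : ∀ x : AlgebraicClosure F, IsIntegral ℚ x := by
    intro x
    have h1 : Algebra.IsAlgebraic ℚ (AlgebraicClosure F) := Algebra.IsAlgebraic.trans ℚ F (AlgebraicClosure F)
    exact (h1.isAlgebraic x).isIntegral
  let b := Module.finBasis ℚ F
  let S : Set (AlgebraicClosure F) := Set.range (fun i => ι (b i)) ∪ {r}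
  have hS : S.Finite := (Set.finite_range _).union (Set.finite_singleton r)
  have hSf : Finite S := hS
  let M₀ : IntermediateField ℚ (AlgebraicClosure F) := IntermediateField.adjoin ℚ S
  have hM₀ : FiniteDimensional ℚ M₀ := IntermediateField.finiteDimensional_adjoin (fun x _ => hint x)
  have halg : Algebra.IsAlgebraic ℚ (AlgebraicClosure F) := ⟨fun x => (hint x).isAlgebraic⟩
  have hcl : IsAlgClosure ℚ (AlgebraicClosure F) := ⟨inferInstance, halg⟩
  have hnor : Normal ℚ (AlgebraicClosure F) := IsAlgClosure.normal ℚ (AlgebraicClosure F)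
  let M : IntermediateField ℚ (AlgebraicClosure F) := IntermediateField.normalClosure ℚ M₀ (AlgebraicClosure F)
  have hle : M₀ ≤ M := IntermediateField.le_normalClosure M₀
  have hMf : FiniteDimensional ℚ M := normalClosure.is_finiteDimensional ℚ M₀ (AlgebraicClosure F)
  have hMn : Normal ℚ M := normalClosure.normal ℚ M₀ (AlgebraicClosure F)
  have hMg : IsGalois ℚ M := ⟨⟩
  have hNF : NumberField M := NumberField.of_module_finite ℚ M
  have hF : ∀ x : F, algebraMap F (AlgebraicClosure F) x ∈ M := by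
    intro x
    apply hle
    have h1 : algebraMap F (AlgebraicClosure F) x = ∑ i, (b.repr x i) • ι (b i) := by
      conv_lhs => rw [← b.sum_repr x]
      change ι _ = _
      rw [map_sum]
      refine Finset.sum_congr rfl fun i _ => ?_
      exact map_rat_smul ι (b.repr x i) (b i)
    rw [h1]
    refine sum_mem fun i _ => M₀.smul_mem ?_
    exact IntermediateField.subset_adjoin ℚ S (Or.inl ⟨i, rfl⟩)
  have hrM : r ∈ M := hle (IntermediateField.subset_adjoin ℚ S (Or.inr rfl))
  let g : F →+* M := (algebraMap F (AlgebraicClosure F)).codRestrict M.toSubring.toSubsemiring hF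
  refine ⟨M, inferInstance, hNF, g.toAlgebra, ?_, ⟨r, hrM⟩, ?_⟩
  · convert hMg
  · apply Subtype.ext
    exact hr

theorem Cg_J {F : Type} [Field F] [NumberField F] {z : F} (hz : z ^ 2 + z + 1 = 0)
    {J : F ≃+* F} (hJ : IsCC J) : J z = z ^ 2 := by
  obtain ⟨φ⟩ := cc_emb F
  have h1 : J z ^ 2 + J z + 1 = 0 := by
    rw [← map_pow, ← map_add, ← map_one J, ← map_add, hz, map_zero]
  have h2 : (J z - z) * (J z - z ^ 2) = 0 := by
    linear_combination h1 + (-J z + z - 1) * hz
  rcases mul_eq_zero.1 h2 with h3 | h3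
  · exfalso
    have h4 : J z = z := sub_eq_zero.1 h3
    have h5 := hJ φ z
    rw [h4] at h5
    have h6 : (φ z).im = 0 := by
      have := congrArg Complex.im h5
      rw [Complex.conj_im] at this
      linarith
    have h7 : φ z ^ 2 + φ z + 1 = 0 := by
      rw [← map_pow, ← map_add, ← map_one φ, ← map_add, hz, map_zero]
    have h8 := congrArg Complex.re h7
    rw [Complex.add_re, Complex.add_re, sq, Complex.mul_re, h6, Complex.one_re, Complex.zero_re] at h8
    nlinarith [sq_nonneg ((φ z).re + 1 / 2)]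
  · exact sub_eq_zero.1 h3

theorem noNewCubeG_of_sn {K Km L F : Type} [Field K] [NumberField K] [Field Km] [NumberField Km]
    [Field L] [NumberField L] [Field F] [NumberField F] [Algebra K Km] [Algebra Km F]
    [Algebra K F] [IsScalarTower K Km F] [Algebra K L] [Algebra L F] [IsScalarTower K L F] (S : SN K Km L F)
    (hreal : IsTotallyReal L) (hn : ¬ 3 ∣ Module.finrank Km F)
    (hμ : ∀ z : F, z ^ 3 = 1 → ∃ y : Km, algebraMap Km F y = z) {z : F} (hz : z ^ 2 + z + 1 = 0)
    {J : F ≃+* F} (hJ : IsCC J) (HU : NoUnr 3 Km F J) : H55T3.NoNewCubeG K L := by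
  intro x hx h3 hloc hNx
  have hf3 : Fact (Nat.Prime 3) := ⟨Nat.prime_three⟩
  have hG1 : IsGalois K F := S.gal
  have hG2 : IsGalois K L := S.galL
  have hG3 : IsGalois Km F := IsGalois.tower_top_of_isGalois K Km F
  have hx' : algebraMap L F x ≠ 0 := by rw [Ne, map_eq_zero]; exact hx
  obtain ⟨N, _, _, _, hGN, r, hr3⟩ := Cg_exists_N (l := 3) (by norm_num) (algebraMap L F x)
  have hr : r ≠ 0 := by
    rintro rfl
    rw [zero_pow (by norm_num)] at hr3
    exact hx' ((map_eq_zero (algebraMap F N)).1 hr3.symm)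
  obtain ⟨a, ha⟩ := kum_exists hz hr ⟨_, hr3⟩
  have hunr : UnrC 3 F a := kum_unr hz hr hr3 h3 hloc ha
  have hJz : J z = z ^ 2 := Cg_J hz hJ
  have hJx : J (algebraMap L F x) = algebraMap L F x := by
    obtain ⟨φ⟩ := cc_emb F
    apply φ.injective
    rw [hJ φ]
    exact real_fix hreal (algebraMap L F) φ x
  have hX : H78M.PairK K Km L F (fun _ : L ≃ₐ[K] L => True) := by
    refine ⟨?_, ?_⟩
    · intro g
      refine ⟨(AlgEquiv.restrictScalars K g).restrictNormal L, trivial, fun y => ?_⟩
      exact ((AlgEquiv.restrictScalars K g).restrictNormal_commutes L y).symm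
    · intro h _
      exact S.cov h
  have hNL : ∃ y : L, ∏ h : L ≃ₐ[K] L, h x = y ^ 3 := by
    obtain ⟨y, hy⟩ := hNx
    refine ⟨algebraMap K L y, ?_⟩
    rw [← Algebra.norm_eq_prod_automorphisms, hy, map_pow]
  have hNL' : ∀ inst : DecidablePred (fun _ : L ≃ₐ[K] L => True),
      ∃ y : L, ∏ h ∈ @Finset.filter _ (fun _ : L ≃ₐ[K] L => True) inst univ, h x = y ^ 3 := by
    intro inst
    have e : @Finset.filter _ (fun _ : L ≃ₐ[K] L => True) inst univ = univ := by
      ext h
      simp
    rw [e]
    exact hNL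
  have hNF : ∃ c : F, algebraMap Km F (Algebra.norm Km (algebraMap L F x)) = c ^ 3 := by
    exact H78M.prod_K hX (hNL' _)
  have hz3 : z ^ 3 = 1 := by linear_combination (z - 1) * hz
  have h0 := HU N a hunr (fun t ht u hu => kum_J hz hr hr3 ha hJz hJx t ht u hu)
    (fun R hR u hu => kum_norm hz (hμ z hz3) hr hr3 hNF ha R hR u hu)
  obtain ⟨y, hy⟩ := kum_zero ha h0
  have hy3 : algebraMap L F x = y ^ 3 := by
    apply (algebraMap F N).injective
    rw [← hr3, map_pow, hy]
  exact H78M.down_K S.comm hn hμ hX hx (hNL' _) hy3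

end H78N
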