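import Pool.Agent.H68.TL.Ccl

/-!
ROW Ce (the imaginary quadratic extension `C = L(s)` inside `F`; about 100 lines).  PROOF.
`minpoly L s` divides `X^2 - C d`, whose image in `F[X]` is `(X - s') (X + s')`, `s' = algebraMap Km F s1`, so it splits in `F`: `IntermediateField.nonempty_algHom_of_adjoin_splits` (with `hgen`) gives `ι : C →ₐ[L] F`. `(ι s)^2 = algebraMap L F d = s'^2`, so `ι s = s'` or `-s'`: `s0 = ± s1`.
`d ≠ 0`: `L` has an embedding in `ℝ` (`hreal`: every infinite place is real; `NumberField.InfinitePlace`: take any `w`, `InfinitePlace.isReal_iff`, `embedding_of_isReal`), `hneg`.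
`J` fixes `algebraMap L F x`: choose `φ : F →+* ℂ`; `φ (J y) = conj (φ y)` (`IsCC`); `φ ∘ algebraMap L F` is a real embedding as `L` is totally real (`IsTotallyReal`, `ComplexEmbedding.IsReal`, `InfinitePlace.isReal_mk_iff`), so `conj` fixes its values; `φ` injective.
(`Pool/Agent/H68/TL/Ccl.lean` may contain this.) `J (ι s) = -ι s`: `(φ (ι s))^2 = σ d < 0` for the real embedding `σ` of `L` with `(σ y : ℂ) = φ (algebraMap L F y)`; a complex number `c` whose square is a negative real is purely imaginary (`c.re = 0`: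
`(c^2).im = 2 re im = 0`, `(c^2).re = re^2 - im^2 < 0`), `conj c = -c`.
`g`: `C / L` is normal (`C` is generated by `s`, and `-s ∈ C`), or directly: the `L`-algebra homomorphism `g : C →ₐ[L] C` with `g s = -s`: again `IntermediateField.exists_algHom_of_adjoin_splits`... simplest: `J ∘ ι : C →ₐ[L] F` has the same range as `ι` (the range of `ι` is
generated by `ι s` over the image of `L`, that of `J ∘ ι` by `-ι s`: `AlgHom.fieldRange`, `IntermediateField.adjoin_map`), so `g = ι⁻¹ ∘ J ∘ ι` on this range: `AlgEquiv.ofInjectiveField ι`. Or: for each `x : C` there is `x'` with `J (ι x) = ι x'` (the set of such `x` is an intermediate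
field containing `s`: `IntermediateField.adjoin_induction` with `hgen`); `choose`; the choice is a ring homomorphism by injectivity of `ι`, `L`-linear, bijective (`AlgEquiv.ofBijective`, finite dimensional).
-/

set_option autoImplicit false
open scoped Classical

open NumberField

namespace H78N

theorem Ce_im {z : ℂ} {r : ℝ} (h : z ^ 2 = (r : ℂ)) (hr : r < 0) : starRingEnd ℂ z = -z := by
  have h1 := congrArg Complex.re h
  have h2 := congrArg Complex.im h
  rw [pow_two, Complex.mul_re, Complex.ofReal_re] at h1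
  rw [pow_two, Complex.mul_im, Complex.ofReal_im] at h2
  have h3 : z.re = 0 := by
    by_contra h0
    have h4 : z.im = 0 := by
      have h5 : z.re * z.im = 0 := by linarith
      rcases mul_eq_zero.1 h5 with h6 | h6
      · exact absurd h6 h0
      · exact h6
    rw [h4] at h1
    nlinarith [mul_self_nonneg z.re]
  apply Complex.ext
  · rw [Complex.conj_re, Complex.neg_re, h3, neg_zero]
  · rw [Complex.conj_im, Complex.neg_im]

theorem exists_C {L C F Km : Type} [Field L] [NumberField L] [Field C] [NumberField C] [Field F] [NumberField F]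
    [Field Km] [NumberField Km] [Algebra L C] [Algebra L F] [Algebra Km F] (hreal : IsTotallyReal L) {d : L}
    {s : C} (hs : s ^ 2 = algebraMap L C d) (hneg : ∀ σ : L →+* ℝ, σ d < 0)
    (hgen : IntermediateField.adjoin L {s} = ⊤) {s1 : Km} (hs1 : algebraMap Km F s1 ^ 2 = algebraMap L F d)
    {J : F ≃+* F} (hJ : H68TL.IsCC J) :
    ∃ ι : C →ₐ[L] F, (∃ s0 : Km, algebraMap Km F s0 = ι s) ∧
      ∃ g : C ≃ₐ[L] C, g s = -s ∧ ∀ x, J (ι x) = ι (g x) := by
  obtain ⟨φ⟩ := H68TL.cc_emb F
  have hfix : ∀ x : L, J (algebraMap L F x) = algebraMap L F x := by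
    intro x
    apply φ.injective
    rw [hJ φ]
    exact H68TL.real_fix hreal (algebraMap L F) φ x
  -- the real embedding of `L`
  have hψ : ComplexEmbedding.IsReal (φ.comp (algebraMap L F)) :=
    InfinitePlace.isReal_mk_iff.mp (hreal.isReal (InfinitePlace.mk (φ.comp (algebraMap L F))))
  have hσ : ∀ y : L, ((hψ.embedding y : ℝ) : ℂ) = φ (algebraMap L F y) := fun y =>
    ComplexEmbedding.IsReal.coe_embedding_apply hψ y
  -- the embedding of `C`
  have hmon : (Polynomial.X ^ 2 - Polynomial.C d : Polynomial L).Monic :=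
    Polynomial.monic_X_pow_sub_C d two_ne_zero
  have haev : Polynomial.aeval s (Polynomial.X ^ 2 - Polynomial.C d : Polynomial L) = 0 := by
    rw [map_sub, map_pow, Polynomial.aeval_X, Polynomial.aeval_C, hs, sub_self]
  have hint : IsIntegral L s := ⟨_, hmon, haev⟩
  have hdvd : minpoly L s ∣ (Polynomial.X ^ 2 - Polynomial.C d : Polynomial L) :=
    minpoly.dvd L s haev
  have hmap : (Polynomial.X ^ 2 - Polynomial.C d : Polynomial L).map (algebraMap L F) =
      (Polynomial.X - Polynomial.C (algebraMap Km F s1)) *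
        (Polynomial.X + Polynomial.C (algebraMap Km F s1)) := by
    rw [Polynomial.map_sub, Polynomial.map_pow, Polynomial.map_X, Polynomial.map_C, ← hs1,
      Polynomial.C_pow]
    ring
  have hspl : ((minpoly L s).map (algebraMap L F)).Splits := by
    refine Polynomial.Splits.of_dvd (g := (Polynomial.X ^ 2 - Polynomial.C d :
      Polynomial L).map (algebraMap L F)) ?_ ?_ (Polynomial.map_dvd _ hdvd)
    · rw [hmap]
      exact (Polynomial.Splits.X_sub_C _).mul (Polynomial.Splits.X_add_C _)
    · exact (hmon.map _).ne_zero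
  obtain ⟨ι⟩ := IntermediateField.nonempty_algHom_of_adjoin_splits (F := L) (E := C) (K := F)
    (S := {s}) (fun x hx => by
      rw [Set.mem_singleton_iff.1 hx]
      exact ⟨hint, hspl⟩) hgen
  have hιs : ι s ^ 2 = algebraMap L F d := by
    rw [← map_pow, hs]
    exact ι.commutes d
  have hJs : J (ι s) = -ι s := by
    apply φ.injective
    rw [hJ φ, map_neg]
    refine Ce_im (r := hψ.embedding d) ?_ (hneg _)
    rw [hσ, ← map_pow, hιs]
  have hs0 : ∃ s0 : Km, algebraMap Km F s0 = ι s := by
    have h1 : (ι s - algebraMap Km F s1) * (ι s + algebraMap Km F s1) = 0 := by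
      linear_combination hιs - hs1
    rcases mul_eq_zero.1 h1 with h | h
    · exact ⟨s1, by linear_combination -h⟩
    · exact ⟨-s1, by rw [map_neg]; linear_combination -h⟩
  -- stability
  obtain ⟨Jι, hJι⟩ : ∃ Jι : C →ₐ[L] F, ∀ x, Jι x = J (ι x) := by
    refine ⟨{ (J : F →+* F).comp (ι : C →+* F) with commutes' := ?_ }, fun x => rfl⟩
    intro r
    change J (ι (algebraMap L C r)) = algebraMap L F r
    rw [ι.commutes, hfix]
  have hle : IntermediateField.adjoin L {s} ≤ ι.fieldRange.comap Jι := by
    rw [IntermediateField.adjoin_le_iff]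
    intro x hx
    rw [Set.mem_singleton_iff.1 hx]
    change Jι s ∈ ι.fieldRange
    rw [hJι, hJs]
    exact ⟨-s, map_neg ι s⟩
  have hst : ∀ x : C, ∃ y : C, J (ι x) = ι y := by
    intro x
    have h1 : x ∈ IntermediateField.adjoin L {s} := by
      rw [hgen]
      exact IntermediateField.mem_top
    have h2 : Jι x ∈ ι.fieldRange := hle h1
    rw [hJι] at h2
    obtain ⟨y, hy⟩ := h2
    exact ⟨y, hy.symm⟩
  obtain ⟨J0, -, hJ0⟩ := H68TL.isCC_down' (ι : C →+* F) hJ hst
  have hJ0' : ∀ x, J (ι x) = ι (J0 x) := hJ0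
  have hinj : Function.Injective ι := ι.toRingHom.injective
  have hcomm : ∀ r : L, J0 (algebraMap L C r) = algebraMap L C r := by
    intro r
    apply hinj
    rw [← hJ0', ι.commutes, hfix]
  refine ⟨ι, hs0, AlgEquiv.ofRingEquiv hcomm, ?_, fun x => ?_⟩
  · change J0 s = -s
    apply hinj
    rw [← hJ0', hJs, map_neg]
  · change J (ι x) = ι (J0 x)
    exact hJ0' x

end H78N
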