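import Pool.Agent.H68.QS.Dec
import Pool.Agent.H55.T3.Kdf

/-!
ROW Dc (layers over any `k` as composita; about 110 lines).  PROOF.
Copy `H68QS.Dec_main` / `decompose` (`Pool/Agent/H68/QS/Dec.lean`; or `lay_gen_main` in `Pool/Agent/H55/T3/Y4.lean` for one field): `L →ₐ[k] CyclotomicField (p^(n+1)) k =: C`, `ζ`, `Z = ℚ(ζ)`, `ψL : L →ₐ[ℚ] C`, `ψK = ψL ∘ (K → L)`, `K' = Z.comap ψK`, `L' = Z.comap ψL`
(intermediate fields of `K/ℚ`, `L/ℚ`), `K' → L'` the restriction of `K → L`; `genK`, `genL` from `Dec_gen`; `IsR p L'` as in `lay_gen_main`.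
The condition on `[k : ℚ]` in `decompose` is only used for the degrees; here we need instead `finrank k K ∣ finrank ℚ K'`: `K' / ℚ` is Galois (a subfield of the abelian field `Z`: `Dec_gal`-type lemma, `IsAbelianGalois.tower_bot ℚ K' Z`), `K` is generated over `k` by `K'`
(`C.genK`), so restriction `Gal(K/k) → Gal(K'/ℚ)` is an injective homomorphism and `K / k` is Galois, and the order of a subgroup divides the order of the group (`Subgroup.card_dvd_of_injective`, `IsGalois.card_aut_eq_finrank`). For `K / k` Galois: it is a splitting field of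
the minimal polynomials, or: `K` embeds over `k` in `C`, `C / k` is abelian Galois (`IsCyclotomicExtension.isAbelianGalois` or `isGalois`, `IsAbelianGalois.tower_bot k K C`).
`Dec_deg` in `Pool/Agent/H68/QS/Dec.lean` may help.
-/

set_option autoImplicit false
open scoped Classical

open NumberField H68QS H5SW

namespace H78N

/-- restriction of automorphisms: the order of `Gal(K/k)` divides the order of `Gal(K'/ℚ)` -/
theorem Dc_dvd {k K : Type} [Field k] [NumberField k] [Field K] [NumberField K] [Algebra k K] [IsGalois k K]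
    (K' : IntermediateField ℚ K) [IsGalois ℚ K']
    (hgen : IntermediateField.adjoin ℚ (Set.range (algebraMap k K) ∪ (K' : Set K)) = ⊤) :
    Module.finrank k K ∣ Module.finrank ℚ K' := by
  have h1 : ∀ (σ : K ≃ₐ[ℚ] K) (x : K'), ((AlgEquiv.restrictNormalHom K' σ x : K') : K) = σ (x : K) :=
    fun σ x => AlgEquiv.restrictNormal_commutes σ K' x
  let res : (K ≃ₐ[k] K) →* (K' ≃ₐ[ℚ] K') :=
    { toFun := fun σ => AlgEquiv.restrictNormalHom K' (σ.restrictScalars ℚ)
      map_one' := by
        have : (1 : K ≃ₐ[k] K).restrictScalars ℚ = 1 := rfl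
        rw [this, map_one]
      map_mul' := fun a b => by
        have : (a * b).restrictScalars ℚ = a.restrictScalars ℚ * b.restrictScalars ℚ := rfl
        rw [this, map_mul] }
  have hinj : Function.Injective res := by
    rw [injective_iff_map_eq_one]
    intro σ hσ
    have h2 : ∀ x : K, x ∈ K' → σ x = x := by
      intro x hx
      have h3 := h1 (σ.restrictScalars ℚ) ⟨x, hx⟩
      have h4 : AlgEquiv.restrictNormalHom K' (σ.restrictScalars ℚ) = 1 := hσ
      rw [h4] at h3
      exact h3.symm
    have h5 : ∀ x : K, σ x = x := by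
      intro x
      have hx : x ∈ IntermediateField.adjoin ℚ (Set.range (algebraMap k K) ∪ (K' : Set K)) := by
        rw [hgen]
        exact IntermediateField.mem_top
      induction hx using IntermediateField.adjoin_induction with
      | mem y hy =>
        rcases hy with ⟨z, rfl⟩ | hy
        · exact σ.commutes z
        · exact h2 y hy
      | algebraMap r =>
        exact (σ.restrictScalars ℚ).commutes r
      | add y z _ _ hy hz => rw [map_add, hy, hz]
      | inv y _ hy => rw [map_inv₀, hy]
      | mul y z _ _ hy hz => rw [map_mul, hy, hz]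
    exact AlgEquiv.ext h5
  have h6 := Subgroup.card_dvd_of_injective res hinj
  rwa [IsGalois.card_aut_eq_finrank, IsGalois.card_aut_eq_finrank] at h6

theorem Dc_main {p n : ℕ} [Fact p.Prime] {k K L C : Type} [Field k] [NumberField k] [Field K] [NumberField K]
    [Field L] [NumberField L] [Algebra k K] [Algebra K L] [Algebra k L] [IsScalarTower k K L]
    [Field C] [NumberField C] [Algebra k C] [IsCyclotomicExtension {p ^ (n + 1)} k C] (φ : L →ₐ[k] C)
    (hreal : IsTotallyReal L) :
    ∃ (K' L' : Type) (_ : Field K') (_ : NumberField K') (_ : Field L') (_ : NumberField L')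
      (_ : Algebra K' L') (C : Comp k K' L' K L), C.f = algebraMap k K ∧ IsR p L' ∧
      Module.finrank k K ∣ Module.finrank ℚ K' := by
  have hp : p.Prime := Fact.out
  have hne : NeZero (p ^ (n + 1)) := ⟨pow_ne_zero _ hp.ne_zero⟩
  have hneQ : NeZero ((p ^ (n + 1) : ℕ) : ℚ) :=
    ⟨Nat.cast_ne_zero.2 (pow_ne_zero _ hp.ne_zero)⟩
  have hζ := IsCyclotomicExtension.zeta_spec (p ^ (n + 1)) k C
  set ζ := IsCyclotomicExtension.zeta (p ^ (n + 1)) k C with hζdef
  set Z : IntermediateField ℚ C := IntermediateField.adjoin ℚ {ζ} with hZ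
  have hZcyc : IsCyclotomicExtension {p ^ (n + 1)} ℚ Z :=
    hζ.intermediateField_adjoin_isCyclotomicExtension ℚ
  have hZab : @IsAbelianGalois ℚ Z _ _ (IntermediateField.algebra' Z) :=
    @IsCyclotomicExtension.isAbelianGalois {p ^ (n + 1)} ℚ Z _ _ (IntermediateField.algebra' Z) hZcyc
  have hZgal : @IsGalois ℚ _ Z _ (IntermediateField.algebra' Z) := hZab.toIsGalois
  have hζZ : ζ ∈ Z := IntermediateField.mem_adjoin_simple_self ℚ ζ
  let ψL : L →ₐ[ℚ] C := φ.restrictScalars ℚ
  let ψK : K →ₐ[ℚ] C := ψL.comp (IsScalarTower.toAlgHom ℚ K L)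
  have cL : ∀ x : k, ψL (algebraMap K L (algebraMap k K x)) = algebraMap k C x := by
    intro x
    rw [← IsScalarTower.algebraMap_apply k K L x]
    exact φ.commutes x
  set SL : Set L := Set.range (fun x : k => algebraMap K L (algebraMap k K x)) with hSL
  set SK : Set K := Set.range (algebraMap k K) with hSK
  have hL : Z ⊔ (IntermediateField.adjoin ℚ SL).map ψL = ⊤ := by
    refine Dec_top (k := k) hζ _ ((le_sup_left : Z ≤ _) hζZ) fun x => ?_
    refine (le_sup_right : (IntermediateField.adjoin ℚ SL).map ψL ≤ _) ?_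
    exact ⟨_, IntermediateField.subset_adjoin ℚ _ ⟨x, rfl⟩, cL x⟩
  have hK : Z ⊔ (IntermediateField.adjoin ℚ SK).map ψK = ⊤ := by
    refine Dec_top (k := k) hζ _ ((le_sup_left : Z ≤ _) hζZ) fun x => ?_
    refine (le_sup_right : (IntermediateField.adjoin ℚ SK).map ψK ≤ _) ?_
    exact ⟨_, IntermediateField.subset_adjoin ℚ _ ⟨x, rfl⟩, cL x⟩
  have gL := Dec_gen ψL Z SL hL
  have gK := Dec_gen ψK Z SK hK
  let i : (Z.comap ψK) →+* (Z.comap ψL) :=
    { toFun := fun x => ⟨algebraMap K L x.1, x.2⟩
      map_one' := by ext; simp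
      map_zero' := by ext; simp
      map_mul' := by intro x y; ext; simp
      map_add' := by intro x y; ext; simp }
  let alg : Algebra (Z.comap ψK) (Z.comap ψL) := i.toAlgebra
  have hKgal : IsGalois k K := by
    let aKC : Algebra K C := (φ.toRingHom.comp (algebraMap K L)).toAlgebra
    have htow : IsScalarTower k K C := IsScalarTower.of_algebraMap_eq fun x => by
      have h1 : algebraMap K C (algebraMap k K x) = φ (algebraMap K L (algebraMap k K x)) := rfl
      rw [h1, ← IsScalarTower.algebraMap_apply k K L x, φ.commutes]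
    have hab : IsAbelianGalois k C := IsCyclotomicExtension.isAbelianGalois {p ^ (n + 1)} k C
    exact (IsAbelianGalois.tower_bot k K C).toIsGalois
  have hK'gal : IsGalois ℚ (Z.comap ψK) := by
    let j : (Z.comap ψK) →+* Z :=
      { toFun := fun x => ⟨ψK x.1, x.2⟩
        map_one' := by ext; simp
        map_zero' := by ext; simp
        map_mul' := by intro x y; ext; simp
        map_add' := by intro x y; ext; simp }
    let aKZ : Algebra (Z.comap ψK) Z := j.toAlgebra
    have htow : IsScalarTower ℚ (Z.comap ψK) Z := IsScalarTower.of_algebraMap_eq' (Subsingleton.elim _ _)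
    have hZab2 : IsAbelianGalois ℚ Z := hZab
    exact (IsAbelianGalois.tower_bot ℚ (Z.comap ψK) Z).toIsGalois
  refine ⟨Z.comap ψK, Z.comap ψL, inferInstance, inferInstance, inferInstance, inferInstance, alg,
    { f := algebraMap k K
      g := (Z.comap ψK).val.toRingHom
      h := (Z.comap ψL).val.toRingHom
      comm := fun x => rfl
      genK := ?_
      genL := ?_ }, rfl, ⟨?_, ?_⟩, ?_⟩
  · have e : Set.range ((Z.comap ψK).val.toRingHom) = (Z.comap ψK : Set K) := Subtype.range_coe
    rw [e]
    exact gK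
  · have e : Set.range ((Z.comap ψL).val.toRingHom) = (Z.comap ψL : Set L) := Subtype.range_coe
    rw [e]
    exact gL
  · exact IsTotallyReal.of_algebra (Z.comap ψL) L
  · refine ⟨n, ⟨?_⟩⟩
    have hcyc : IsCyclotomicExtension {p ^ (n + 1)} ℚ (CyclotomicField (p ^ (n + 1)) ℚ) :=
      CyclotomicField.isCyclotomicExtension _ _
    have e := IsCyclotomicExtension.algEquiv {p ^ (n + 1)} ℚ Z (CyclotomicField (p ^ (n + 1)) ℚ)
    let j : (Z.comap ψL) →+* Z :=
      { toFun := fun x => ⟨ψL x.1, x.2⟩
        map_one' := by ext; simp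
        map_zero' := by ext; simp
        map_mul' := by intro x y; ext; simp
        map_add' := by intro x y; ext; simp }
    exact e.toRingEquiv.toRingHom.comp j
  · exact Dc_dvd (Z.comap ψK) gK

theorem comp_of_lay {p : ℕ} [Fact p.Prime] {k K L : Type} [Field k] [NumberField k] [Field K] [NumberField K]
    [Field L] [NumberField L] [Algebra k K] [Algebra K L] [Algebra k L] [IsScalarTower k K L]
    (hL : H55T3.Lay p k L) :
    ∃ (K' L' : Type) (_ : Field K') (_ : NumberField K') (_ : Field L') (_ : NumberField L')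
      (_ : Algebra K' L') (C : Comp k K' L' K L), C.f = algebraMap k K ∧ IsR p L' ∧
      Module.finrank k K ∣ Module.finrank ℚ K' := by
  obtain ⟨hreal, n, ⟨φ⟩⟩ := hL
  have hp : p.Prime := Fact.out
  have hne : NeZero (p ^ (n + 1)) := ⟨pow_ne_zero _ hp.ne_zero⟩
  have hnek : NeZero ((p ^ (n + 1) : ℕ) : k) :=
    ⟨Nat.cast_ne_zero.2 (pow_ne_zero _ hp.ne_zero)⟩
  have hCn : NumberField (CyclotomicField (p ^ (n + 1)) k) :=
    IsCyclotomicExtension.numberField {p ^ (n + 1)} k _
  have hcyc : IsCyclotomicExtension {p ^ (n + 1)} k (CyclotomicField (p ^ (n + 1)) k) :=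
    CyclotomicField.isCyclotomicExtension _ _
  exact Dc_main (p := p) (n := n) φ hreal

end H78N
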