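import Pool.Agent.H78.MN.Dn

/-!
ROW Dg (degree and roots of unity of `F / Km`; about 60 lines).  PROOF.
`[Km : ℚ] = φ(M p^(m+1))`, `[F : ℚ] = φ(M p^(n+1))` (`IsCyclotomicExtension.finrank` with `Polynomial.cyclotomic.irreducible_rat`), `[Km : ℚ] [F : Km] = [F : ℚ]` (`Module.finrank_mul_finrank`), `φ(M p^(n+1)) = φ(M) p^n (p-1)` (`Nat.totient_mul`, `p` prime to `M`,
`Nat.totient_prime_pow_succ`), so `[F : Km] = p^(n-m)`, prime to `l ≠ p`.
`mu_cyc`: `Km` contains a primitive root `ζ` of order `M p^(m+1)` (`IsCyclotomicExtension.zeta_spec`), `l ∣ M`, so a primitive `l`-th root `η` (`IsPrimitiveRoot.pow`); its image in `F` is a primitive `l`-th root, and `z = (algebraMap Km F η)^i` (`IsPrimitiveRoot.eq_pow_of_pow_eq_one`).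
-/

set_option autoImplicit false
open scoped Classical

open NumberField

namespace H78N

theorem nl_cyc {l p M m n : ℕ} [Fact l.Prime] [Fact p.Prime] [NeZero M] (hlp : l ≠ p) (hpM : p.Coprime M)
    (hmn : m ≤ n) (Km F : Type) [Field Km] [NumberField Km] [Field F] [NumberField F] [Algebra Km F]
    [IsCyclotomicExtension {M * p ^ (m + 1)} ℚ Km] [IsCyclotomicExtension {M * p ^ (n + 1)} ℚ F] :
    ¬ l ∣ Module.finrank Km F := by
  have hp : p.Prime := Fact.out
  have hl : l.Prime := Fact.out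
  have hM : 0 < M := Nat.pos_of_ne_zero (NeZero.ne M)
  have hpos : ∀ k, 0 < M * p ^ (k + 1) := fun k => Nat.mul_pos hM (pow_pos hp.pos _)
  have n1 : NeZero (M * p ^ (m + 1)) := ⟨(hpos m).ne'⟩
  have n2 : NeZero (M * p ^ (n + 1)) := ⟨(hpos n).ne'⟩
  have h1 : Module.finrank ℚ Km = Nat.totient (M * p ^ (m + 1)) :=
    IsCyclotomicExtension.finrank Km (Polynomial.cyclotomic.irreducible_rat (hpos m))
  have h2 : Module.finrank ℚ F = Nat.totient (M * p ^ (n + 1)) :=
    IsCyclotomicExtension.finrank F (Polynomial.cyclotomic.irreducible_rat (hpos n))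
  have h3 : Module.finrank ℚ Km * Module.finrank Km F = Module.finrank ℚ F :=
    Module.finrank_mul_finrank ℚ Km F
  have hc : ∀ k, Nat.totient (M * p ^ (k + 1)) = Nat.totient M * (p ^ k * (p - 1)) := by
    intro k
    rw [Nat.totient_mul (Nat.Coprime.pow_right _ hpM.symm), Nat.totient_prime_pow_succ hp]
  rw [h1, h2, hc, hc] at h3
  obtain ⟨d, rfl⟩ := Nat.exists_eq_add_of_le hmn
  have hp1 : 0 < p - 1 := Nat.sub_pos_of_lt hp.one_lt
  have h4 : Module.finrank Km F = p ^ d := by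
    have h5 : Nat.totient M * (p ^ m * (p - 1)) * Module.finrank Km F =
        Nat.totient M * (p ^ m * (p - 1)) * p ^ d := by
      rw [h3, pow_add]
      ring
    exact Nat.eq_of_mul_eq_mul_left
      (Nat.mul_pos (Nat.totient_pos.2 hM) (Nat.mul_pos (pow_pos hp.pos _) hp1)) h5
  rw [h4]
  intro hdvd
  exact hlp ((Nat.prime_dvd_prime_iff_eq hl hp).1 (hl.dvd_of_dvd_pow hdvd))

theorem mu_cyc {l p M m : ℕ} [Fact l.Prime] [Fact p.Prime] [NeZero M] (hlM : l ∣ M)
    {Km F : Type} [Field Km] [NumberField Km] [Field F] [NumberField F] [Algebra Km F]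
    [IsCyclotomicExtension {M * p ^ (m + 1)} ℚ Km] {z : F} (hz : z ^ l = 1) :
    ∃ y : Km, algebraMap Km F y = z := by
  have hp : p.Prime := Fact.out
  have hl : l.Prime := Fact.out
  have hM : 0 < M := Nat.pos_of_ne_zero (NeZero.ne M)
  have hpos : 0 < M * p ^ (m + 1) := Nat.mul_pos hM (pow_pos hp.pos _)
  have n1 : NeZero (M * p ^ (m + 1)) := ⟨hpos.ne'⟩
  have hzeta := IsCyclotomicExtension.zeta_spec (M * p ^ (m + 1)) ℚ Km
  obtain ⟨c, hc⟩ := hlM
  have hdiv : M * p ^ (m + 1) = (c * p ^ (m + 1)) * l := by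
    rw [hc]
    ring
  have heta := hzeta.pow hpos hdiv
  have hetaF := heta.map_of_injective (algebraMap Km F).injective
  have nl : NeZero l := ⟨hl.ne_zero⟩
  obtain ⟨i, -, hi⟩ := hetaF.eq_pow_of_pow_eq_one hz
  exact ⟨(IsCyclotomicExtension.zeta (M * p ^ (m + 1)) ℚ Km ^ (c * p ^ (m + 1))) ^ i, by
    rw [map_pow]
    exact hi⟩

end H78N
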