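import Pool.Agent.H78.MH.Mg
import Pool.Agent.H78.MG.Pb
import Pool.Agent.H78.MG.Pd
import Pool.Agent.H68.TL.Dfl
import Pool.Agent.H55.T3.Df4
import Pool.Agent.H55.T3.Df3

/-!
Layers over a real abelian field `k` inside `F = ℚ(ζ_{M p^(n+1)})` (helper78; definitions, no row).
-/

set_option autoImplicit false
open scoped Classical

open IsDedekindDomain NumberField H5SW H68QS

namespace H78N

/-- The pair `K ⊆ L` inside the pair `Km ⊆ F`, everything abelian over `K`; the elements of `Gal(L/K)` lift to elements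
of `Gal(F/Km)`. -/
structure SN (K Km L F : Type) [Field K] [NumberField K] [Field Km] [NumberField Km] [Field L] [NumberField L]
    [Field F] [NumberField F] [Algebra K Km] [Algebra Km F] [Algebra K F] [Algebra K L] [Algebra L F] : Prop where
  gal : IsGalois K F
  galL : IsGalois K L
  comm : ∀ g h : F ≃ₐ[K] F, g * h = h * g
  cov : ∀ h : L ≃ₐ[K] L, ∃ g : F ≃ₐ[Km] F, ∀ x : L, g (algebraMap L F x) = algebraMap L F (h x)

/-- `u r = z ^ a(u) r` for the automorphisms `u` of `N` fixing `F`. -/
def Kum (F : Type) {N : Type} [Field F] [Field N] [Algebra F N] (z : F) (r : N) (a : (N ≃+* N) → ZMod 3) : Prop :=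
  ∀ u : N ≃+* N, H68TL.Fx F u → u r = algebraMap F N z ^ (a u).val * r

end H78N
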