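import Pool.Agent.H68.QS.Df

/-!
ROW Em (embedding of a compositum; about 60 lines).  PROOF.
Make `L` and `F` `k`-algebras (`((algebraMap K L).comp C.f).toAlgebra`, `φ.toAlgebra`; the scalar towers over `ℚ` are automatic for characteristic zero fields: `IsScalarTower.rat`-type instances or `of_algebraMap_eq'` with
`RingHom.ext_rat`/`Subsingleton`). `L` is generated over `k` by `S = range C.h`: `IntermediateField.adjoin k S = ⊤` since its restriction of scalars to `ℚ` (`IntermediateField.restrictScalars ℚ`) contains the generators in `C.genL`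
(see the last lines of `lay_gen_main` in `Pool/Agent/H55/T3/Y4.lean`). For `y = C.h x`: `y` is integral over `k`, and `minpoly k y` divides `(minpoly ℚ x).map (algebraMap ℚ k)` (`minpoly.dvd`; `aeval y` of it is `C.h (aeval x (minpoly ℚ x)) = 0`), whose map to `F`
is `(minpoly ℚ x).map (algebraMap ℚ F) = (minpoly ℚ (ψ x)).map ..` (`minpoly.algHom_eq`), which splits as `F / ℚ` is normal (`Normal.splits`); a divisor of a nonzero polynomial which splits, splits (`Polynomial.Splits.of_dvd`/`splits_of_splits_of_dvd`).
Then `IntermediateField.nonempty_algHom_of_adjoin_splits` (or `IntermediateField.exists_algHom_of_adjoin_splits`) gives `L →ₐ[k] F`.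
-/

set_option autoImplicit false
open scoped Classical

open NumberField H68QS

namespace H78N

theorem exists_emb {k K' L' K L F : Type} [Field k] [NumberField k] [Field K'] [NumberField K'] [Field L']
    [NumberField L'] [Field K] [NumberField K] [Field L] [NumberField L] [Field F] [NumberField F] [Algebra K' L']
    [Algebra K L] [IsGalois ℚ F] (C : Comp k K' L' K L) (φ : k →+* F) (ψ : L' →+* F) :
    ∃ ι : L →+* F, ∀ x : k, ι (algebraMap K L (C.f x)) = φ x := by
  let i1 : Algebra k L := ((algebraMap K L).comp C.f).toAlgebra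
  let i2 : Algebra k F := φ.toAlgebra
  have h1 : ∀ x : k, algebraMap k L x = algebraMap K L (C.f x) := fun _ => rfl
  have h2 : ∀ x : k, algebraMap k F x = φ x := fun _ => rfl
  have t1 : IsScalarTower ℚ k L := IsScalarTower.of_algebraMap_eq' (RingHom.ext_rat _ _)
  have t2 : IsScalarTower ℚ k F := IsScalarTower.of_algebraMap_eq' (RingHom.ext_rat _ _)
  have hS : IntermediateField.adjoin k (Set.range C.h) = ⊤ := by
    have h3 : (IntermediateField.adjoin k (Set.range C.h)).restrictScalars ℚ = ⊤ := by
      rw [eq_top_iff, ← C.genL, IntermediateField.adjoin_le_iff]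
      rintro _ (⟨x, rfl⟩ | ⟨y, rfl⟩)
      · exact (IntermediateField.adjoin k (Set.range C.h)).algebraMap_mem x
      · exact IntermediateField.subset_adjoin k (Set.range C.h) ⟨y, rfl⟩
    rw [eq_top_iff]
    intro x _
    have h4 : x ∈ (IntermediateField.adjoin k (Set.range C.h)).restrictScalars ℚ := by
      rw [h3]
      trivial
    exact h4
  have hK : ∀ s ∈ Set.range C.h, IsIntegral k s ∧ ((minpoly k s).map (algebraMap k F)).Splits := by
    rintro _ ⟨x, rfl⟩
    have hx : IsIntegral ℚ x := Algebra.IsIntegral.isIntegral x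
    have hy : IsIntegral ℚ (C.h x) := hx.map C.h.toRatAlgHom
    refine ⟨hy.tower_top, ?_⟩
    have h5 : (minpoly ℚ x).map (algebraMap ℚ F) = (minpoly ℚ (ψ x)).map (algebraMap ℚ F) := by
      rw [← minpoly.algHom_eq ψ.toRatAlgHom ψ.injective x]
      rfl
    have h6 : ((minpoly ℚ x).map (algebraMap ℚ F)).Splits := by
      rw [h5]
      exact Normal.splits inferInstance (ψ x)
    have h7 : (minpoly k (C.h x)) ∣ (minpoly ℚ x).map (algebraMap ℚ k) := by
      apply minpoly.dvd
      rw [Polynomial.aeval_map_algebraMap]
      have h8 := Polynomial.aeval_algHom_apply C.h.toRatAlgHom x (minpoly ℚ x)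
      rw [minpoly.aeval, map_zero] at h8
      exact h8
    have h9 : ((minpoly ℚ x).map (algebraMap ℚ k)).map (algebraMap k F) =
        (minpoly ℚ x).map (algebraMap ℚ F) := by
      rw [Polynomial.map_map, ← IsScalarTower.algebraMap_eq]
    refine h6.of_dvd ?_ ?_
    · exact (Polynomial.map_ne_zero_iff (algebraMap ℚ F).injective).2 (minpoly.ne_zero hx)
    · rw [← h9]
      exact Polynomial.map_dvd _ h7
  obtain ⟨ι⟩ := IntermediateField.nonempty_algHom_of_adjoin_splits hK hS
  exact ⟨ι, fun x => ι.commutes x⟩

end H78N
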