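import Pool.Agent.H78.MN.Dn

/-!
`NoNewMinus K L C s` from `NoNewE 3 Km F ∅ J` (adaptation of Pool/Agent/H78/MG/Pc.lean, helper78; no row).
-/

set_option autoImplicit false
open scoped Classical

open IsDedekindDomain NumberField Finset H78M

namespace H78N

variable {l p M m n : ℕ} [Fact p.Prime] [NeZero M] {hmn : m ≤ n} {Km F : Type} [Field Km] [NumberField Km]
  [Field F] [NumberField F] [Algebra Km F] [IsCyclotomicExtension {M * p ^ (m + 1)} ℚ Km]
  [IsCyclotomicExtension {M * p ^ (n + 1)} ℚ F]

theorem base_E (HE : H78H.NoNewE l p M m n hmn F) (J : F ≃ₐ[ℚ] F) (hJ : kp (M * p ^ (n + 1)) J = -1) :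
    H68TL.NoNewE l Km F ∅ (J : F ≃+* F) := by
  intro e he hv hN _ hJe
  refine HE e he hv ?_ ?_
  · obtain ⟨y, hy⟩ := hN
    exact ⟨y, by rw [← hy, norm_eq_inH (p := p) (M := M) (Km := Km) hmn]⟩
  · intro g hg
    have h1 : g = J := by
      rw [← hJ] at hg
      exact (MulEquiv.injective _) hg
    rw [h1]
    exact hJe

theorem noNewMinus_of_sn {K Km L C F : Type} [Field K] [NumberField K] [Field Km] [NumberField Km]
    [Field L] [NumberField L] [Field C] [NumberField C] [Field F] [NumberField F] [Algebra K Km] [Algebra Km F]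
    [Algebra K F] [IsScalarTower K Km F] [Algebra K L] [Algebra L F] [IsScalarTower K L F]
    [Algebra L C] [Algebra K C] [IsScalarTower K L C] [Algebra C F] [IsScalarTower L C F] (S : SN K Km L F)
    (hn : ¬ 3 ∣ Module.finrank Km F) (hμ : ∀ z : F, z ^ 3 = 1 → ∃ y : Km, algebraMap Km F y = z) {s : C}
    (hgen : IntermediateField.adjoin L {s} = ⊤) (hsK : ∃ s0 : Km, algebraMap Km F s0 = algebraMap C F s)
    {J : F ≃+* F} (HE : H68TL.NoNewE 3 Km F ∅ J)
    (hJ0 : ∃ g : C ≃ₐ[L] C, g s = -s ∧ ∀ x, J (algebraMap C F x) = algebraMap C F (g x)) :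
    H55T3.NoNewMinus K L C s := by
  have h3 : Fact (Nat.Prime 3) := ⟨Nat.prime_three⟩
  have hKCF : IsScalarTower K C F := by
    refine IsScalarTower.of_algebraMap_eq fun x => ?_
    rw [IsScalarTower.algebraMap_apply K L F, IsScalarTower.algebraMap_apply L C F,
      IsScalarTower.algebraMap_apply K L C]
  have hG1 : IsGalois K F := S.gal
  have hG2 : IsGalois K L := S.galL
  have hab : IsAbelianGalois K F := { is_comm := ⟨fun a b => S.comm a b⟩ }
  have hG3' : IsAbelianGalois K C := IsAbelianGalois.tower_bot K C F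
  have hG3 : IsGalois K C := inferInstance
  obtain ⟨s0, hs0⟩ := hsK
  have hgs : ∀ g : F ≃ₐ[Km] F, g (algebraMap C F s) = algebraMap C F s := by
    intro g
    rw [← hs0, g.commutes]
  have hX : PairK K Km C F (fun h : C ≃ₐ[K] C => h s = s) := by
    refine ⟨?_, ?_⟩
    · intro g
      have hcomm : ∀ x : C, g (algebraMap C F x) =
          algebraMap C F (((AlgEquiv.restrictScalars K g).restrictNormal C) x) := by
        intro x
        exact ((AlgEquiv.restrictScalars K g).restrictNormal_commutes C x).symm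
      refine ⟨(AlgEquiv.restrictScalars K g).restrictNormal C, ?_, hcomm⟩
      apply (algebraMap C F).injective
      rw [← hcomm s, hgs g]
    · intro h hh
      obtain ⟨g, hg⟩ := S.cov (h.restrictNormal L)
      refine ⟨g, fun x => ?_⟩
      have hx : x ∈ IntermediateField.adjoin L ({s} : Set C) := by
        rw [hgen]
        exact IntermediateField.mem_top
      induction hx using IntermediateField.adjoin_induction with
      | mem y hy =>
        rw [Set.mem_singleton_iff] at hy
        rw [hy, hgs g, hh]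
      | algebraMap y =>
        rw [← IsScalarTower.algebraMap_apply, hg y, IsScalarTower.algebraMap_apply L C F,
          AlgEquiv.restrictNormal_commutes]
      | add y z _ _ hy hz => rw [map_add, map_add, hy, hz, map_add, map_add]
      | inv y _ hy => rw [map_inv₀, map_inv₀, hy, map_inv₀, map_inv₀]
      | mul y z _ _ hy hz => rw [map_mul, map_mul, hy, hz, map_mul, map_mul]
  intro e he hv hN hJ'
  refine pair_K S.comm hn hμ HE hX he hv hN ?_ ?_
  · intro τ hτ
    exact absurd hτ (Set.notMem_empty τ)
  · obtain ⟨g, hgs', hgJ⟩ := hJ0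
    obtain ⟨y, hy⟩ := hJ' g hgs'
    exact ⟨algebraMap C F y, by rw [hgJ, ← map_mul, hy, map_pow]⟩

end H78N
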