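import Pool.Agent.H68.TL.Una
import Pool.Agent.H68.TL.Unb
import Pool.Agent.H78.MH.Mg

/-!
ROW Nu (unramified characters over the cyclotomic field, no condition for `τ`; about 200 lines).  PROOF.
This is `noUnr_cyc` of `Pool/Agent/H68/TL/Unb.lean` (COMPLETE proof in its header, or by now the proof itself) and `top_of_noNewT` of `Pool/Agent/H68/TL/Unc.lean` with everything about `τ` deleted: `S = {h0, J}` (`h0` from `H68TL.exists_h0`, `orderOf J = 2` from `H68TL.exists_tau`),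
`H78H.NoNewT` in place of `H78M.NoNewT`, `H68TL.NoUnr` in place of `NoUnrP`. Copy the two proofs; private lemmas may be copied.
-/

set_option autoImplicit false
set_option linter.style.haveILetI false
open scoped Classical nonZeroDivisors Pointwise

open IsDedekindDomain NumberField Finset H78M

namespace H78N

private theorem Nu_top {l p M m n : ℕ} [Fact l.Prime] [Fact p.Prime] [NeZero M] {hmn : m ≤ n}
    {F : Type} [Field F] [NumberField F] [IsCyclotomicExtension {M * p ^ (n + 1)} ℚ F]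
    (HT : H78H.NoNewT l p M m n hmn F) {J h0 : F ≃ₐ[ℚ] F} (hJ : kp (M * p ^ (n + 1)) J = -1)
    (hh0 : ∀ g : F ≃ₐ[ℚ] F, InH p M m n hmn g ↔ ∃ k < orderOf h0, g = h0 ^ k)
    (hJ2 : orderOf J = 2)
    (T : Subgroup (ClassGroup (𝓞 F)))
    (h1 : ∀ (t : F ≃ₐ[ℚ] F) (I : Ideal (𝓞 F)), I ≠ ⊥ → H2T4.icl I ∈ T → H2T4.icl (t • I) ∈ T)
    (h2 : ∀ c, c ^ l ∈ T)
    (h3 : ∀ g ∈ ({h0, J} : Set (F ≃ₐ[ℚ] F)), ∀ I : Ideal (𝓞 F), I ≠ ⊥ →
      H2T4.icl (∏ j ∈ range (orderOf g), g ^ j • I) ∈ T) : T = ⊤ := by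
  have hdouble : ∀ g ∈ ({h0, J} : Set (F ≃ₐ[ℚ] F)), orderOf g = 2 →
      ∀ I : Ideal (𝓞 F), I ≠ ⊥ → H2T4.icl I * H2T4.icl (g • I) ∈ T := by
    intro g hg h2' I hI
    have h4 := h3 g hg I hI
    rw [h2', Finset.prod_range_succ, Finset.prod_range_one, pow_zero, one_smul, pow_one,
      H2T4.icl_mul hI (H68TL.Unc_ne g hI)] at h4
    exact h4
  refine HT T (fun t I hI h => h1 t I hI h) (fun I _ => h2 _) ?_ ?_
  · intro I hI
    have e : univ.filter (fun g : F ≃ₐ[ℚ] F => InH p M m n hmn g) =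
        (range (orderOf h0)).image (fun k => h0 ^ k) := by
      ext g
      rw [mem_filter, mem_image]
      constructor
      · rintro ⟨_, h⟩
        obtain ⟨k, hk, h4⟩ := (hh0 g).1 h
        exact ⟨k, mem_range.2 hk, h4.symm⟩
      · rintro ⟨k, hk, h4⟩
        exact ⟨mem_univ _, (hh0 g).2 ⟨k, mem_range.1 hk, h4.symm⟩⟩
    rw [e, Finset.prod_image (fun k hk k' hk' h =>
      pow_injOn_Iio_orderOf (Set.mem_Iio.2 (mem_range.1 hk)) (Set.mem_Iio.2 (mem_range.1 hk')) h)]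
    have h4 := h3 h0 (by simp) I hI
    rw [(H68TL.Unc_prod _ (fun j => h0 ^ j • I) (fun j => H68TL.Unc_ne _ hI)).1] at h4
    exact h4
  · intro g hg I hI
    have hgJ : g = J := (IsCyclotomicExtension.Rat.galEquivZMod (M * p ^ (n + 1)) F).injective
      (hg.trans hJ.symm)
    rw [hgJ]
    exact hdouble J (by simp) hJ2 I hI

private theorem Nu_invol {F N : Type} [Field F] [Field N] [Algebra F N] {t : N ≃+* N}
    {g : F ≃+* F} (h : H68TL.Ext t g) (hg : ∀ x, g (g x) = x) : H68TL.Ext t⁻¹ g := by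
  intro x
  change t.symm (algebraMap F N x) = algebraMap F N (g x)
  rw [RingEquiv.symm_apply_eq, h, hg]

private theorem Nu_pow {F N : Type} [Field F] [NumberField F] [Field N] [NumberField N]
    [Algebra F N] {s : N ≃ₐ[ℚ] N} {g : F ≃ₐ[ℚ] F} (h : H2T4.Lft s g) (k : ℕ) :
    H2T4.Lft (s ^ k) (g ^ k) := by
  induction k with
  | zero => intro x; rfl
  | succ k ih =>
    intro x
    rw [pow_succ, pow_succ, AlgEquiv.mul_apply, AlgEquiv.mul_apply, h, ih]

/-- the homomorphism -/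
private noncomputable def Nu_a {l : ℕ} {F N : Type} [Field F] [Field N] [Algebra F N]
    {a : (N ≃+* N) → ZMod l} (ha : H68TL.UnrC l F a) : (N ≃ₐ[F] N) →* Multiplicative (ZMod l) where
  toFun u := Multiplicative.ofAdd (a (u : N ≃+* N))
  map_one' := by
    have h1 := ha.mul 1 1 (fun _ => rfl) (fun _ => rfl)
    rw [mul_one] at h1
    have h2 : a 1 = 0 := by
      have h3 : a 1 + 0 = a 1 + a 1 := by rw [add_zero]; exact h1
      exact (add_left_cancel h3).symm
    change Multiplicative.ofAdd (a 1) = 1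
    rw [h2]
    rfl
  map_mul' u v := by
    have h1 := ha.mul (u : N ≃+* N) (v : N ≃+* N) (fun x => u.commutes x) (fun x => v.commutes x)
    change Multiplicative.ofAdd (a ((u : N ≃+* N) * (v : N ≃+* N))) = _
    rw [h1]
    rfl

theorem noUnr {l p M m n : ℕ} [Fact l.Prime] [Fact p.Prime] [NeZero M] (hl2 : l ≠ 2)
    (hp2 : p ≠ 2) (hlp : l ≠ p) (hlM : l ∣ M) (hpM : p.Coprime M) {hmn : m ≤ n} {Km F : Type}
    [Field Km] [NumberField Km] [Field F] [NumberField F] [Algebra Km F]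
    [IsCyclotomicExtension {M * p ^ (m + 1)} ℚ Km] [IsCyclotomicExtension {M * p ^ (n + 1)} ℚ F]
    (HT : H78H.NoNewT l p M m n hmn F) {J : F ≃ₐ[ℚ] F} (hJ : kp (M * p ^ (n + 1)) J = -1) :
    H68TL.NoUnr l Km F (J : F ≃+* F) := by
  have hgalF : IsGalois ℚ F := IsCyclotomicExtension.isGalois {M * p ^ (n + 1)} ℚ F
  obtain ⟨h0, ⟨j0, hj0⟩, hh0⟩ := H68TL.exists_h0 (m := m) hp2 hpM hmn F
  obtain ⟨_, -, -, -, -, hJ2, hc⟩ := H68TL.exists_tau (l := l) hl2 hlM hpM F hJ
  intro N _ _ _ _ a ha haJ har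
  have hl : l.Prime := Fact.out
  have hJJ : ∀ x : F, J (J x) = x := by
    intro x
    have h1 := pow_orderOf_eq_one J
    rw [hJ2, pow_two] at h1
    exact congrArg (fun g : F ≃ₐ[ℚ] F => g x) h1
  have hJJ' : ∀ x : F, (J : F ≃+* F) ((J : F ≃+* F) x) = x := hJJ
  -- conjugation by lifts, in terms of ring automorphisms
  have hcj : ∀ (s : N ≃ₐ[ℚ] N) (σ : N ≃ₐ[F] N),
      ((Pool.Agent.H11.cj s σ : N ≃ₐ[F] N) : N ≃+* N) =
        (s : N ≃+* N)⁻¹ * (σ : N ≃+* N) * (s : N ≃+* N) := by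
    intro s σ
    ext x
    rfl
  -- the sum condition is enough
  have hprod : ∀ (s : N ≃ₐ[ℚ] N) (σ : N ≃ₐ[F] N) (k : ℕ),
      ∑ j ∈ range k, a (((s ^ j : N ≃ₐ[ℚ] N) : N ≃+* N)⁻¹ * (σ : N ≃+* N) *
        ((s ^ j : N ≃ₐ[ℚ] N) : N ≃+* N)) = 0 →
      ∏ j ∈ range k, Nu_a ha (Pool.Agent.H11.cj (s ^ j) σ) = 1 := by
    intro s σ k h1
    have h2 : ∀ j ∈ range k, Nu_a ha (Pool.Agent.H11.cj (s ^ j) σ) =
        Multiplicative.ofAdd (a (((s ^ j : N ≃ₐ[ℚ] N) : N ≃+* N)⁻¹ * (σ : N ≃+* N) *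
        ((s ^ j : N ≃ₐ[ℚ] N) : N ≃+* N))) := by
      intro j _
      change Multiplicative.ofAdd (a ((Pool.Agent.H11.cj (s ^ j) σ : N ≃ₐ[F] N) : N ≃+* N)) = _
      rw [hcj]
    rw [prod_congr rfl h2, ← ofAdd_sum, h1]
    rfl
  have hJneg : ∀ y : N ≃+* N, H68TL.Ext y (J : F ≃+* F) → ∀ u, H68TL.Fx F u →
      a (y⁻¹ * u * y) = -a u := by
    intro y hy u hu
    have h1 := haJ y⁻¹ (Nu_invol hy hJJ') u hu
    rw [inv_inv] at h1
    exact h1
  have hmain : Nu_a ha = 1 := by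
    refine H2T4.no_char F N (fun g g' => hc g g')
      (H68TL.cplx_cyc (l := l) (p := p) (M := M) (n := n) hl2 hlM F) hl ?_ (Nu_a ha) ?_ ({h0, J} : Set (F ≃ₐ[ℚ] F)) ?_ ?_
      (fun T h1 h2 h3 => Nu_top HT hJ hh0 hJ2 T h1 h2 h3)
    · have := hl.two_le
      omega
    · refine H68TL.unrV_of_inertia (Nu_a ha) fun P hP hP0 u hu => ?_
      change Multiplicative.ofAdd (a (u : N ≃+* N)) = 1
      rw [ha.unr P hP hP0 (u : N ≃+* N) (fun x => u.commutes x) hu]
      rfl
    · intro g hg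
      rcases hg with rfl | rfl
      · exact ⟨p, j0, Fact.out, hlp.symm, hj0⟩
      · exact ⟨2, 1, Nat.prime_two, hl2.symm, by rw [hJ2]; norm_num⟩
    · intro g hg s hs σ
      apply hprod
      have hσ : H68TL.Fx F (σ : N ≃+* N) := fun x => σ.commutes x
      rcases hg with rfl | rfl
      · -- the norm condition
        have hinH : ∀ h : F ≃ₐ[Km] F, InH p M m n hmn ((h.restrictScalars ℚ)⁻¹) := by
          intro h
          rw [inH_iff (Km := Km) hmn]
          intro x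
          exact (h⁻¹ : F ≃ₐ[Km] F).commutes x
        have hk : ∀ h : F ≃ₐ[Km] F, ∃ k < orderOf g, (h.restrictScalars ℚ)⁻¹ = g ^ k :=
          fun h => (hh0 _).1 (hinH h)
        choose k hk1 hk2 using hk
        have h1 := har (fun h => (((s ^ k h : N ≃ₐ[ℚ] N) : N ≃+* N))⁻¹) (by
          intro h x
          have h3 := Nu_pow hs (k h)
          change ((s ^ k h : N ≃ₐ[ℚ] N) : N ≃+* N).symm (algebraMap F N x) =
            algebraMap F N (h x)
          rw [RingEquiv.symm_apply_eq]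
          change _ = (s ^ k h) (algebraMap F N (h x))
          rw [h3, ← hk2 h]
          congr 1
          exact (h.symm_apply_apply x).symm) (σ : N ≃+* N) hσ
        rw [← h1]
        symm
        refine Finset.sum_bij (fun h _ => k h) (fun h _ => mem_range.2 (hk1 h)) ?_ ?_ ?_
        · intro h _ h' _ he
          have h4 : (h.restrictScalars ℚ)⁻¹ = (h'.restrictScalars ℚ)⁻¹ := by
            rw [hk2 h, hk2 h', he]
          have h5 := inv_injective h4
          ext x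
          exact congrArg (fun g : F ≃ₐ[ℚ] F => g x) h5
        · intro j hj
          have hj' := mem_range.1 hj
          have h4 : InH p M m n hmn (g ^ j) := (hh0 _).2 ⟨j, hj', rfl⟩
          rw [inH_iff (Km := Km) hmn] at h4
          have h5 : ∀ x : Km, ((g ^ j : F ≃ₐ[ℚ] F) : F ≃+* F).symm (algebraMap Km F x) =
              algebraMap Km F x := by
            intro x
            rw [RingEquiv.symm_apply_eq]
            exact (h4 x).symm
          refine ⟨AlgEquiv.ofRingEquiv (f := ((g ^ j : F ≃ₐ[ℚ] F) : F ≃+* F).symm) h5,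
            mem_univ _, ?_⟩
          have h6 := hk2 (AlgEquiv.ofRingEquiv (f := ((g ^ j : F ≃ₐ[ℚ] F) : F ≃+* F).symm) h5)
          have h7 := hk1 (AlgEquiv.ofRingEquiv (f := ((g ^ j : F ≃ₐ[ℚ] F) : F ≃+* F).symm) h5)
          have h8 : ((AlgEquiv.ofRingEquiv (f := ((g ^ j : F ≃ₐ[ℚ] F) : F ≃+* F).symm) h5 :
              F ≃ₐ[Km] F).restrictScalars ℚ)⁻¹ = g ^ j := by
            rw [inv_eq_iff_eq_inv]
            ext x
            rfl
          rw [h8] at h6
          exact (pow_injOn_Iio_orderOf hj' h7 h6).symm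
        · intro h _
          rw [inv_inv]
      · -- complex conjugation
        rw [hJ2, sum_range_succ, sum_range_succ, sum_range_zero, pow_zero, pow_one, zero_add]
        have h1 := hJneg (s : N ≃+* N) hs (σ : N ≃+* N) hσ
        rw [h1]
        have h2 : ((1 : N ≃ₐ[ℚ] N) : N ≃+* N)⁻¹ * (σ : N ≃+* N) * ((1 : N ≃ₐ[ℚ] N) : N ≃+* N) =
            (σ : N ≃+* N) := by
          ext x
          rfl
        rw [h2, add_neg_cancel]
  intro u hu
  have h1 : Nu_a ha (AlgEquiv.ofRingEquiv (f := u) hu) = 1 := by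
    rw [hmain]
    rfl
  have h2 : Multiplicative.ofAdd (a u) = 1 := h1
  exact Multiplicative.ofAdd.injective h2

end H78N
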