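import Mathlib

/-!
ROW Sc (conjugate embeddings; about 40 lines, Mathlib only).  PROOF.
`E / ℚ` is Galois. `j.comp φ` and `ψ` are two embeddings of `k` in `E`. There is `σ : E ≃ₐ[ℚ] E` with `σ (j (φ x)) = ψ x` for all `x : k`: make `E` a `k`-algebra by `j.comp φ`; `ψ` is a ring homomorphism `k → E`; lift it to `E → E` (`IntermediateField`/`Normal`: `AlgHom.liftNormal`,
or: `E` is algebraic and normal: for `E1 = E` with the `k`-algebra structure `j.comp φ` and `E2 = E` with the structure `ψ`, the minimal polynomials over `k` of the elements of `E1` divide those over `ℚ`, which split in `E2`, so there is `E1 →ₐ[k] E2`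
(`IntermediateField.nonempty_algHom_of_splits`)). Then `s1 = σ (j s0)`.
Alternative for the existence of `s1` only: `k` has a primitive element..., or: `d` is a root of its minimal polynomial over `ℚ`; `j (φ d)` and `ψ d` are conjugate over `ℚ` (same `minpoly ℚ`, `minpoly.algHom_eq`), so there is `σ ∈ Gal(E/ℚ)` with `σ (j (φ d)) = ψ d`
(`Normal.minpoly_eq_iff_mem_orbit` or `IsConjRoot`: `isConjRoot_iff_exists_algEquiv`). This is enough and simplest.
-/

set_option autoImplicit false
open scoped Classical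

namespace H78N

theorem sq_of_emb {k Z E : Type} [Field k] [NumberField k] [Field Z] [NumberField Z] [Field E] [NumberField E]
    [IsGalois ℚ E] (j : Z →+* E) (φ : k →+* Z) (ψ : k →+* E) {d : k} (h : ∃ s0, s0 ^ 2 = φ d) :
    ∃ s1, s1 ^ 2 = ψ d := by
  obtain ⟨s0, hs0⟩ := h
  have h1 : minpoly ℚ ((j.comp φ).toRatAlgHom d) = minpoly ℚ d :=
    minpoly.algHom_eq _ (RingHom.injective (j.comp φ)) d
  have h2 : minpoly ℚ (ψ.toRatAlgHom d) = minpoly ℚ d :=
    minpoly.algHom_eq _ (RingHom.injective ψ) d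
  have h3 : IsConjRoot ℚ (ψ.toRatAlgHom d) ((j.comp φ).toRatAlgHom d) := h2.trans h1.symm
  rw [isConjRoot_iff_exists_algEquiv] at h3
  obtain ⟨σ, hσ⟩ := h3
  refine ⟨σ (j s0), ?_⟩
  rw [← map_pow, ← map_pow, hs0]
  exact hσ

end H78N
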