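import Pool.Agent.H78.MN.Tw
import Pool.Agent.H78.MN.Nu
import Pool.Agent.H78.MN.Sq
import Pool.Agent.H78.MN.Sc
import Pool.Agent.H78.MN.Ce
import Pool.Agent.H78.MN.Cg
import Pool.Agent.H78.MN.Dc
import Pool.Agent.H78.MN.Dg
import Pool.Agent.H78.MN.Mi

/-!
Layers over a real abelian field `k` (block N of MP_78d38b_T3D, helper78; assembly, no row).
-/

set_option autoImplicit false
open scoped Classical

open IsDedekindDomain NumberField H78M H68QS H5SW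

namespace H78N

theorem cyc_inst (d : ℕ) [NeZero d] : IsCyclotomicExtension {d} ℚ (CyclotomicField d ℚ) := by
  have : NeZero ((d : ℕ) : ℚ) := ⟨Nat.cast_ne_zero.2 (NeZero.ne d)⟩
  exact CyclotomicField.isCyclotomicExtension d ℚ

theorem cyc_map {d N : ℕ} [NeZero N] (hd : d ∣ N) (F : Type) [Field F] [NumberField F]
    [IsCyclotomicExtension {N} ℚ F] : Nonempty (CyclotomicField d ℚ →+* F) := by
  obtain ⟨c, hc⟩ := hd
  have hN : N ≠ 0 := NeZero.ne N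
  have hd0 : d ≠ 0 := by
    rintro rfl
    exact hN (by rw [hc, zero_mul])
  have : NeZero d := ⟨hd0⟩
  have hζ := IsCyclotomicExtension.zeta_spec N ℚ F
  have hη : IsPrimitiveRoot (IsCyclotomicExtension.zeta N ℚ F ^ c) d :=
    hζ.pow (Nat.pos_of_ne_zero hN) (by rw [hc, mul_comm])
  have hcyc : IsCyclotomicExtension {d} ℚ (IntermediateField.adjoin ℚ {IsCyclotomicExtension.zeta N ℚ F ^ c}) :=
    hη.intermediateField_adjoin_isCyclotomicExtension ℚ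
  have := cyc_inst d
  have e := IsCyclotomicExtension.algEquiv {d} ℚ (CyclotomicField d ℚ)
    (IntermediateField.adjoin ℚ {IsCyclotomicExtension.zeta N ℚ F ^ c})
  exact ⟨(IntermediateField.val _).toRingHom.comp e.toRingEquiv.toRingHom⟩

theorem exists_M {p f : ℕ} [Fact p.Prime] (hp3 : p ≠ 3) (hf : f ≠ 0) :
    ∃ M a : ℕ, M ≠ 0 ∧ p.Coprime M ∧ 3 ∣ M ∧ 1 < M ∧ f ∣ M * p ^ (a + 1) := by
  have hp : p.Prime := Fact.out
  obtain ⟨b, f', hf', hff⟩ := Nat.exists_eq_pow_mul_and_not_dvd hf p hp.ne_one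
  have hf0 : f' ≠ 0 := by
    rintro rfl
    exact hf' (dvd_zero p)
  refine ⟨3 * f', b, mul_ne_zero three_ne_zero hf0, ?_, dvd_mul_right 3 f', ?_, ?_⟩
  · apply Nat.Coprime.mul_right
    · rw [Nat.coprime_primes hp Nat.prime_three]
      exact hp3
    · exact (Nat.Prime.coprime_iff_not_dvd hp).2 hf'
  · have := Nat.pos_of_ne_zero hf0
    omega
  · rw [hff]
    exact ⟨3 * p, by ring⟩

/-- the data for a layer over `k` of high level -/
theorem exists_all {p M a n0 : ℕ} [Fact p.Prime] [NeZero M] (hp2 : p ≠ 2) (hp3 : p ≠ 3) (hpM : p.Coprime M)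
    (h3M : 3 ∣ M) {k0 : ℕ} (hk0 : ∀ (m n : ℕ) (hmn : m ≤ n), k0 ≤ m + 1 → ∀ (C : Type) [Field C] [NumberField C]
      [IsCyclotomicExtension {M * p ^ (n + 1)} ℚ C], H78H.NoNewE 3 p M m n hmn C ∧ H78H.NoNewT 3 p M m n hmn C)
    {k K' L' K L : Type} [Field k] [NumberField k] [Field K'] [NumberField K'] [Field L'] [NumberField L']
    [Field K] [NumberField K] [Field L] [NumberField L] [Algebra K' L'] [Algebra K L]
    (C : Comp k K' L' K L) (φ : k →+* CyclotomicField (M * p ^ (a + 1)) ℚ)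
    (e : L' →+* CyclotomicField (p ^ (n0 + 1)) ℚ) {i : ℕ} (hi : Module.finrank K L = p ^ i)
    (ham : a ≤ padicValNat p (Module.finrank ℚ K')) (hkm : k0 ≤ padicValNat p (Module.finrank ℚ K')) :
    ∃ (Km F : Type) (_ : Field Km) (_ : NumberField Km) (_ : Field F) (_ : NumberField F) (_ : Algebra K Km)
      (_ : Algebra Km F) (_ : Algebra K F) (_ : IsScalarTower K Km F) (_ : Algebra L F) (_ : IsScalarTower K L F)
      (J : F ≃+* F),
      SN K Km L F ∧ ¬ 3 ∣ Module.finrank Km F ∧ (∀ z : F, z ^ 3 = 1 → ∃ y : Km, algebraMap Km F y = z) ∧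
      (∃ z : F, z ^ 2 + z + 1 = 0) ∧ H68TL.IsCC J ∧ H68TL.NoNewE 3 Km F ∅ J ∧ H68TL.NoUnr 3 Km F J ∧
      (∃ j : CyclotomicField (M * p ^ (a + 1)) ℚ →+* Km, True) ∧ IsGalois ℚ Km := by
  have h3 : Fact (Nat.Prime 3) := ⟨Nat.prime_three⟩
  have hp : p.Prime := Fact.out
  obtain ⟨n, hn⟩ : ∃ n, n = max n0 a := ⟨_, rfl⟩
  have hne : ∀ t, NeZero (M * p ^ t) := fun t => ⟨mul_ne_zero (NeZero.ne M) (pow_ne_zero _ hp.ne_zero)⟩
  have hnep : ∀ t, NeZero (p ^ t) := fun t => ⟨pow_ne_zero _ hp.ne_zero⟩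
  have hneM := hne (n + 1)
  have hnea := hne (a + 1)
  have i1 := cyc_inst (p ^ (n + 1))
  have i2 := cyc_inst (M * p ^ (n + 1))
  have i3 := cyc_inst (M * p ^ (a + 1))
  obtain ⟨e1⟩ := cyc_map (d := p ^ (n0 + 1)) (N := p ^ (n + 1))
    (pow_dvd_pow p (by rw [hn]; exact Nat.succ_le_succ (le_max_left _ _))) (CyclotomicField (p ^ (n + 1)) ℚ)
  obtain ⟨j1⟩ := cyc_map (d := M * p ^ (a + 1)) (N := M * p ^ (n + 1))
    (Nat.mul_dvd_mul_left M (pow_dvd_pow p (by rw [hn]; exact Nat.succ_le_succ (le_max_right _ _))))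
    (CyclotomicField (M * p ^ (n + 1)) ℚ)
  obtain ⟨m, hm⟩ : ∃ m, m = padicValNat p (Module.finrank ℚ K') := ⟨_, rfl⟩
  rw [← hm] at ham hkm
  obtain ⟨hmn, Km, _, _, hcKm, _, _, _, hT1, _, hT2, S, -⟩ := exists_sn (F := CyclotomicField (M * p ^ (n + 1)) ℚ) hp2 hpM ham C φ
    (e1.comp e) hm.symm hi (j1.comp φ)
  obtain ⟨J, hJ, hJc⟩ := H68TL.exists_JC (M * p ^ (n + 1)) (CyclotomicField (M * p ^ (n + 1)) ℚ)
  obtain ⟨HE, HT⟩ := hk0 m n hmn (by omega) (CyclotomicField (M * p ^ (n + 1)) ℚ)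
  have hnem := hne (m + 1)
  refine ⟨Km, CyclotomicField (M * p ^ (n + 1)) ℚ, _, inferInstance, _, inferInstance, _, _, _, hT1, _, hT2, (J : _ ≃+* _), S,
    nl_cyc (p := p) (M := M) (Ne.symm hp3) hpM hmn Km _, fun z hz => mu_cyc (p := p) (M := M) (m := m) h3M hz, ?_, hJc, base_E HE J hJ,
    noUnr (by norm_num) hp2 (Ne.symm hp3) h3M hpM HT hJ, ?_, ?_⟩
  · have hζ := IsCyclotomicExtension.zeta_spec (M * p ^ (n + 1)) ℚ (CyclotomicField (M * p ^ (n + 1)) ℚ)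
    obtain ⟨c, hc⟩ := h3M
    have h1 : M * p ^ (n + 1) = (c * p ^ (n + 1)) * 3 := by rw [hc]; ring
    have hω := hζ.pow (Nat.pos_of_ne_zero (NeZero.ne _)) h1
    refine ⟨IsCyclotomicExtension.zeta (M * p ^ (n + 1)) ℚ (CyclotomicField (M * p ^ (n + 1)) ℚ) ^ (c * p ^ (n + 1)), ?_⟩
    have h2 := hω.isRoot_cyclotomic (by norm_num)
    rw [Polynomial.cyclotomic_three] at h2
    simpa using h2
  · exact ⟨(cyc_map (Nat.mul_dvd_mul_left M (pow_dvd_pow p (Nat.succ_le_succ ham))) Km).some, trivial⟩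
  · exact IsCyclotomicExtension.isGalois {M * p ^ (m + 1)} ℚ Km

/-- No new cubes for real layers over the abelian fields `k ⊆ ℚ(ζ_f)`. -/
theorem noNewCubeG_comp {p f : ℕ} [Fact p.Prime] (hp2 : p ≠ 2) (hp3 : p ≠ 3) (hf : f ≠ 0) :
    ∃ N : ℕ, ∀ (k : Type) [Field k] [NumberField k], (k →+* CyclotomicField f ℚ) →
      ∀ (K' L' K L : Type) [Field K'] [NumberField K'] [Field L'] [NumberField L'] [Field K]
      [NumberField K] [Field L] [NumberField L] [Algebra K' L'] [Algebra K L], Comp k K' L' K L → IsR p L' →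
      (∃ i, Module.finrank K L = p ^ i) → p ^ N ∣ Module.finrank ℚ K' → IsTotallyReal L →
      H55T3.NoNewCubeG K L := by
  have h3 : Fact (Nat.Prime 3) := ⟨Nat.prime_three⟩
  have hp : p.Prime := Fact.out
  obtain ⟨M, a, hM0, hpM, h3M, hM1, hfM⟩ := exists_M (p := p) hp3 hf
  have hMne : NeZero M := ⟨hM0⟩
  obtain ⟨k0, hk0⟩ := H78H.exists_level 3 p M (by norm_num) hp2 (Ne.symm hp3) hpM hM1
  have hne : NeZero (M * p ^ (a + 1)) := ⟨mul_ne_zero hM0 (pow_ne_zero _ hp.ne_zero)⟩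
  have i3 := cyc_inst (M * p ^ (a + 1))
  obtain ⟨j⟩ := cyc_map hfM (CyclotomicField (M * p ^ (a + 1)) ℚ)
  refine ⟨max a k0, ?_⟩
  intro k _ _ φ K' L' K L _ _ _ _ _ _ _ _ _ _ C hR hi hN hreal
  obtain ⟨i, hi⟩ := hi
  obtain ⟨-, n0, ⟨e⟩⟩ := hR
  have hv : max a k0 ≤ padicValNat p (Module.finrank ℚ K') := by
    rw [← padicValNat_dvd_iff_le Module.finrank_pos.ne']
    exact hN
  obtain ⟨Km, F, _, _, _, _, _, _, _, _, _, _, J, S, hn, hμ, ⟨z, hz⟩, hJ, -, HU, -, -⟩ :=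
    exists_all hp2 hp3 hpM h3M hk0 C (j.comp φ) e hi (le_trans (le_max_left _ _) hv) (le_trans (le_max_right _ _) hv)
  exact noNewCubeG_of_sn S hreal hn hμ hz hJ HU

/-- The minus side for real layers over the abelian fields `k ⊆ ℚ(ζ_f)`: `C = L(s)`, `s^2 = d ∈ k` totally negative,
`√d ∈ ℚ(ζ_f)`. -/
theorem noNewMinus_comp {p f : ℕ} [Fact p.Prime] (hp2 : p ≠ 2) (hp3 : p ≠ 3) (hf : f ≠ 0) :
    ∃ N : ℕ, ∀ (k : Type) [Field k] [NumberField k] (φ : k →+* CyclotomicField f ℚ) (d : k),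
      (∃ s0, s0 ^ 2 = φ d) → (∀ σ : k →+* ℝ, σ d < 0) →
      ∀ (K' L' K L : Type) [Field K'] [NumberField K'] [Field L'] [NumberField L'] [Field K]
      [NumberField K] [Field L] [NumberField L] [Algebra K' L'] [Algebra K L] (X : Comp k K' L' K L), IsR p L' →
      (∃ i, Module.finrank K L = p ^ i) → p ^ N ∣ Module.finrank ℚ K' → IsTotallyReal L →
      ∀ (C : Type) [Field C] [NumberField C] [Algebra L C] [Algebra K C] [IsScalarTower K L C] (s : C),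
        s ^ 2 = algebraMap L C (algebraMap K L (X.f d)) → IntermediateField.adjoin L {s} = ⊤ →
        H55T3.NoNewMinus K L C s := by
  have h3 : Fact (Nat.Prime 3) := ⟨Nat.prime_three⟩
  have hp : p.Prime := Fact.out
  obtain ⟨M, a, hM0, hpM, h3M, hM1, hfM⟩ := exists_M (p := p) hp3 hf
  have hMne : NeZero M := ⟨hM0⟩
  obtain ⟨k0, hk0⟩ := H78H.exists_level 3 p M (by norm_num) hp2 (Ne.symm hp3) hpM hM1
  have hne : NeZero (M * p ^ (a + 1)) := ⟨mul_ne_zero hM0 (pow_ne_zero _ hp.ne_zero)⟩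
  have i3 := cyc_inst (M * p ^ (a + 1))
  obtain ⟨j⟩ := cyc_map hfM (CyclotomicField (M * p ^ (a + 1)) ℚ)
  refine ⟨max a k0, ?_⟩
  intro k _ _ φ d hd hneg K' L' K L _ _ _ _ _ _ _ _ _ _ X hR hi hN hreal C _ _ _ _ _ s hs hgen
  obtain ⟨s0, hs0⟩ := hd
  obtain ⟨i, hi⟩ := hi
  obtain ⟨-, n0, ⟨e⟩⟩ := hR
  have hv : max a k0 ≤ padicValNat p (Module.finrank ℚ K') := by
    rw [← padicValNat_dvd_iff_le Module.finrank_pos.ne']
    exact hN
  obtain ⟨Km, F, _, _, _, _, _, _, _, hT1, _, hT2, J, S, hn, hμ, -, hJ, HE, -, ⟨j', -⟩, hGKm⟩ :=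
    exists_all hp2 hp3 hpM h3M hk0 X (j.comp φ) e hi (le_trans (le_max_left _ _) hv) (le_trans (le_max_right _ _) hv)
  obtain ⟨s1, hs1⟩ := sq_of_emb j' (j.comp φ) ((algebraMap K Km).comp X.f) (d := d)
    ⟨j s0, by rw [RingHom.comp_apply, ← hs0, map_pow]⟩
  have hs1' : algebraMap Km F s1 ^ 2 = algebraMap L F (algebraMap K L (X.f d)) := by
    rw [← map_pow, hs1, RingHom.comp_apply, ← IsScalarTower.algebraMap_apply, ← IsScalarTower.algebraMap_apply]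
  obtain ⟨ι, hι, hJ0⟩ := exists_C hreal hs (fun σ => hneg ((σ.comp (algebraMap K L)).comp X.f)) hgen hs1' hJ
  let _ : Algebra C F := ι.toRingHom.toAlgebra
  have hT3 : IsScalarTower L C F := IsScalarTower.of_algebraMap_eq fun x => (ι.commutes x).symm
  exact noNewMinus_of_sn S hn hμ hgen hι HE hJ0

end H78N
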