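import Pool.Agent.H78.MG.Df

/-!
ROW Fm (subfields of `ℚ(ζ_d) ⊆ ℚ(ζ_N)`; about 70 lines).  PROOF.
`Z = CyclotomicField d ℚ` (`d ≠ 0` since `d ∣ N ≠ 0`; `NumberField` and `IsCyclotomicExtension {d} ℚ Z` are instances, `IsGalois ℚ Z` by `IsCyclotomicExtension.isGalois`). `F` contains a primitive `d`-th root of unity (`ζ ^ (N / d)`, `IsPrimitiveRoot.pow`),
so there is `j : Z →ₐ[ℚ] F` (`IsCyclotomicExtension`: `X^d - 1`/`minpoly` splits in `F`; for instance `IntermediateField.adjoin ℚ {ζ ^ (N/d)}` is cyclotomic by `IsPrimitiveRoot.intermediateField_adjoin_isCyclotomicExtension` and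
`IsCyclotomicExtension.algEquiv {d} ℚ _ _`). Make `F` a `Z`-algebra (`j.toRingHom.toAlgebra`).
(1) `g (j z) = j z` for all `z : Z`: `IsCyclotomicExtension.Rat.galEquivZMod_restrictNormal_apply N F Z hd g` says `galEquivZMod d Z (g.restrictNormal Z) = unitsMap hd (kp N g) = 1`, so `g.restrictNormal Z = 1` and `AlgEquiv.restrictNormal_commutes`
(see `inH_iff` in `Pool/Agent/H78/MG/Pd.lean`).
(2) `ψ x ∈ range j`: `minpoly ℚ (ψ x) = minpoly ℚ x = minpoly ℚ (e x)` (`minpoly.algHom_eq` for `ψ.toRatAlgHom`, `e.toRatAlgHom`), it splits in `Z` (`Normal.splits`), so all its roots in `F` are in the image of `Z` (`Polynomial.Splits.mem_range_of_isRoot` or similar: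
the roots of `(minpoly).map` are the images of the roots in `Z`, `Polynomial.roots_map`).
-/

set_option autoImplicit false
open scoped Classical

open NumberField H78M

namespace H78N

theorem fix_of_map_one {N d : ℕ} [NeZero N] (hd : d ∣ N) {A F : Type} [Field A] [NumberField A] [Field F]
    [NumberField F] [IsCyclotomicExtension {N} ℚ F] (e : A →+* CyclotomicField d ℚ) (ψ : A →+* F)
    (g : F ≃ₐ[ℚ] F) (hg : ZMod.unitsMap hd (kp N g) = 1) (x : A) : g (ψ x) = ψ x := by
  have hd0 : d ≠ 0 := by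
    rintro rfl
    exact NeZero.ne N (zero_dvd_iff.1 hd)
  have : NeZero d := ⟨hd0⟩
  have : NeZero ((d : ℕ) : ℚ) := ⟨Nat.cast_ne_zero.2 hd0⟩
  have : IsCyclotomicExtension {d} ℚ (CyclotomicField d ℚ) :=
    CyclotomicField.isCyclotomicExtension d ℚ
  have hζ : IsPrimitiveRoot (IsCyclotomicExtension.zeta N ℚ F ^ (N / d)) d :=
    (IsCyclotomicExtension.zeta_spec N ℚ F).pow (Nat.pos_of_ne_zero (NeZero.ne N))
      (Nat.div_mul_cancel hd).symm
  have hE : IsCyclotomicExtension {d} ℚ
      (IntermediateField.adjoin ℚ {IsCyclotomicExtension.zeta N ℚ F ^ (N / d)}) :=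
    hζ.intermediateField_adjoin_isCyclotomicExtension ℚ
  obtain ⟨E, hE'⟩ : ∃ E : IntermediateField ℚ F,
      E = IntermediateField.adjoin ℚ {IsCyclotomicExtension.zeta N ℚ F ^ (N / d)} := ⟨_, rfl⟩
  rw [← hE'] at hE
  have : IsGalois ℚ E := IsCyclotomicExtension.isGalois {d} ℚ E
  have h2 := IsCyclotomicExtension.Rat.galEquivZMod_restrictNormal_apply N F E hd g
  rw [hg, EmbeddingLike.map_eq_one_iff] at h2
  have hfix : ∀ z : E, g (algebraMap E F z) = algebraMap E F z := by
    intro z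
    have h3 := AlgEquiv.restrictNormal_commutes g E z
    rw [← h3, h2, AlgEquiv.one_apply]
  have i : CyclotomicField d ℚ ≃ₐ[ℚ] E := IsCyclotomicExtension.algEquiv {d} ℚ _ _
  have hm : minpoly ℚ (ψ x) = minpoly ℚ (i (e x)) := by
    have a1 : minpoly ℚ (ψ.toRatAlgHom x) = minpoly ℚ x :=
      minpoly.algHom_eq ψ.toRatAlgHom ψ.injective x
    have a2 : minpoly ℚ (e.toRatAlgHom x) = minpoly ℚ x :=
      minpoly.algHom_eq e.toRatAlgHom e.injective x
    have a3 : minpoly ℚ (i (e.toRatAlgHom x)) = minpoly ℚ (e.toRatAlgHom x) :=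
      minpoly.algEquiv_eq i _
    exact a1.trans (a3.trans a2).symm
  have hs : ((minpoly ℚ (i (e x))).map (algebraMap ℚ E)).Splits := Normal.splits inferInstance _
  have hint : IsIntegral ℚ (ψ x) := Algebra.IsIntegral.isIntegral _
  have hr : ψ x ∈ (((minpoly ℚ (i (e x))).map (algebraMap ℚ E)).map (algebraMap E F)).roots := by
    rw [Polynomial.map_map, ← IsScalarTower.algebraMap_eq, ← hm, Polynomial.mem_roots
      (Polynomial.map_ne_zero (minpoly.ne_zero hint)), Polynomial.IsRoot.def,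
      Polynomial.eval_map_algebraMap]
    exact minpoly.aeval _ _
  rw [hs.roots_map, Multiset.mem_map] at hr
  obtain ⟨z, _, hz⟩ := hr
  rw [← hz]
  exact hfix z

end H78N
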