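import Mathlib

/-!
ROW Gr (subgroups of the cyclic group `(ℤ/p^(n+1))ˣ`; about 90 lines, Mathlib only).  PROOF.
`G = (ZMod (p ^ (n + 1)))ˣ` is cyclic (`p` odd: `ZMod.isCyclic_units_of_prime_pow`), `|G| = p^n (p - 1)` (`ZMod.card_units_eq_totient`, `Nat.totient_prime_pow_succ`). `U` = kernel of `ZMod.unitsMap .. : G →* (ZMod (p ^ (m + 1)))ˣ`,
which is surjective (`ZMod.unitsMap_surjective`), so `|U| = p^(n-m)` (`Subgroup.card_mul_index`, `Subgroup.index_ker`). `|V| * index = p^n (p - 1)` (`Subgroup.card_mul_index`), `index = p^m s`, `s` prime to `p`, so `|V| s = p^(n-m) (p - 1)`: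
`p^(n-m) ∣ |V|` (coprime to `s`) and `|V| ∣ p^(n-m) (p - 1)`.
In a cyclic group a subgroup `H` is the set of the `x` with `x^|H| = 1` (it is contained in this set, which has at most `|H|` elements: `IsCyclic.card_pow_eq_one_le`). First claim: `w ∈ U`: `w^(p^(n-m)) = 1`, so `w^|V| = 1`, `w ∈ V`.
Second claim: `v^|V| = 1`, so `(v^(p-1))^(p^(n-m)) = 1`, so `v^(p-1) ∈ U`.
-/

set_option autoImplicit false
open scoped Classical

namespace H78N

private theorem Gr_mem {G : Type*} [CommGroup G] [Fintype G] [IsCyclic G] (H : Subgroup G) {x : G}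
    (hx : x ^ Nat.card H = 1) : x ∈ H := by
  have h1 : (Finset.univ.filter fun a : G => a ^ Nat.card H = 1).card ≤ Nat.card H :=
    IsCyclic.card_pow_eq_one_le Nat.card_pos
  have h2 : (Finset.univ.filter fun a : G => a ∈ H) ⊆
      Finset.univ.filter fun a : G => a ^ Nat.card H = 1 := by
    intro a ha
    rw [Finset.mem_filter] at ha ⊢
    refine ⟨Finset.mem_univ _, ?_⟩
    have h3 := pow_card_eq_one' (x := (⟨a, ha.2⟩ : H))
    have h4 := congrArg Subtype.val h3
    rw [SubmonoidClass.coe_pow] at h4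
    exact h4
  have h3 : (Finset.univ.filter fun a : G => a ∈ H).card = Nat.card H := by
    rw [Nat.card_eq_fintype_card, Fintype.card_subtype]
  have h4 := Finset.eq_of_subset_of_card_le h2 (by rw [h3]; exact h1)
  have h5 : x ∈ Finset.univ.filter fun a : G => a ^ Nat.card H = 1 :=
    Finset.mem_filter.2 ⟨Finset.mem_univ _, hx⟩
  rw [← h4, Finset.mem_filter] at h5
  exact h5.2

theorem gr {p m n : ℕ} [Fact p.Prime] (hp2 : p ≠ 2) (hmn : m ≤ n) (V : Subgroup (ZMod (p ^ (n + 1)))ˣ)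
    (hV : padicValNat p V.index = m) :
    (∀ w : (ZMod (p ^ (n + 1)))ˣ, ZMod.unitsMap (pow_dvd_pow p (Nat.succ_le_succ hmn)) w = 1 → w ∈ V) ∧
      ∀ v ∈ V, ZMod.unitsMap (pow_dvd_pow p (Nat.succ_le_succ hmn)) (v ^ (p - 1)) = 1 := by
  have hp : p.Prime := Fact.out
  have hp1 : 0 < p - 1 := Nat.sub_pos_of_lt hp.one_lt
  have hcyc : IsCyclic (ZMod (p ^ (n + 1)))ˣ := ZMod.isCyclic_units_of_prime_pow p hp hp2 (n + 1)
  have hne : NeZero (p ^ (n + 1)) := ⟨pow_ne_zero _ hp.ne_zero⟩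
  have hne' : NeZero (p ^ (m + 1)) := ⟨pow_ne_zero _ hp.ne_zero⟩
  have hcard : ∀ k : ℕ, Nat.card (ZMod (p ^ (k + 1)))ˣ = p ^ k * (p - 1) := by
    intro k
    have : NeZero (p ^ (k + 1)) := ⟨pow_ne_zero _ hp.ne_zero⟩
    rw [Nat.card_eq_fintype_card, ZMod.card_units_eq_totient, Nat.totient_prime_pow_succ hp]
  obtain ⟨U, hU⟩ : ∃ U : Subgroup (ZMod (p ^ (n + 1)))ˣ,
      U = (ZMod.unitsMap (pow_dvd_pow p (Nat.succ_le_succ hmn))).ker := ⟨_, rfl⟩
  have hUi : U.index = p ^ m * (p - 1) := by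
    rw [hU, Subgroup.index_ker, ← hcard m]
    have hs := ZMod.unitsMap_surjective (pow_dvd_pow p (Nat.succ_le_succ hmn))
    rw [MonoidHom.range_eq_top.2 hs, Subgroup.card_top]
  have hpn : p ^ n = p ^ (n - m) * p ^ m := by
    rw [← pow_add, Nat.sub_add_cancel hmn]
  have hUc : Nat.card U = p ^ (n - m) := by
    have h1 := U.card_mul_index
    rw [hUi, hcard n, hpn] at h1
    have h2 : 0 < p ^ m * (p - 1) := Nat.mul_pos (pow_pos hp.pos _) hp1
    exact Nat.eq_of_mul_eq_mul_right h2 (by rw [h1]; ring)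
  have hVi : V.index ≠ 0 := Subgroup.index_ne_zero_of_finite
  obtain ⟨s, hs1, hs2⟩ : ∃ s : ℕ, V.index = p ^ m * s ∧ ¬ p ∣ s := by
    have h1 : p ^ m ∣ V.index := by
      rw [← hV]
      exact pow_padicValNat_dvd
    obtain ⟨s, hs⟩ := h1
    refine ⟨s, hs, fun hd => ?_⟩
    obtain ⟨r, hr⟩ := hd
    have h2 : p ^ (m + 1) ∣ V.index := ⟨r, by rw [hs, hr, pow_succ]; ring⟩
    have h3 := (padicValNat_dvd_iff_le hVi).1 h2
    omega
  have hVc : Nat.card V * s = p ^ (n - m) * (p - 1) := by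
    have h1 := V.card_mul_index
    rw [hs1, hcard n, hpn] at h1
    have h2 : 0 < p ^ m := pow_pos hp.pos _
    refine Nat.eq_of_mul_eq_mul_right h2 ?_
    calc Nat.card V * s * p ^ m = Nat.card V * (p ^ m * s) := by ring
      _ = p ^ (n - m) * p ^ m * (p - 1) := h1
      _ = p ^ (n - m) * (p - 1) * p ^ m := by ring
  have hd1 : p ^ (n - m) ∣ Nat.card V := by
    have h1 : p ^ (n - m) ∣ Nat.card V * s := by rw [hVc]; exact dvd_mul_right _ _
    exact ((Nat.Prime.coprime_iff_not_dvd hp).2 hs2 |>.pow_left (n - m)).dvd_of_dvd_mul_right h1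
  have hd2 : Nat.card V ∣ p ^ (n - m) * (p - 1) := ⟨s, hVc.symm⟩
  constructor
  · intro w hw
    apply Gr_mem V
    have h1 : w ∈ U := by
      rw [hU]
      exact hw
    have h2 : w ^ Nat.card U = 1 := by
      have h3 := pow_card_eq_one' (x := (⟨w, h1⟩ : U))
      have h4 := congrArg Subtype.val h3
      rw [SubmonoidClass.coe_pow] at h4
      exact h4
    rw [hUc] at h2
    obtain ⟨r, hr⟩ := hd1
    rw [hr, pow_mul, h2, one_pow]
  · intro v hv
    have h2 : v ^ Nat.card V = 1 := by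
      have h3 := pow_card_eq_one' (x := (⟨v, hv⟩ : V))
      have h4 := congrArg Subtype.val h3
      rw [SubmonoidClass.coe_pow] at h4
      exact h4
    have h5 : v ^ (p - 1) ∈ U := by
      apply Gr_mem U
      rw [hUc, ← pow_mul]
      obtain ⟨r, hr⟩ := hd2
      rw [mul_comm (p - 1), hr, pow_mul, h2, one_pow]
    rw [hU] at h5
    exact h5

end H78N
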