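import Pool.Agent.H78.MN.Dn

/-!
ROW Ka (the Kummer character of `r`, `r^3 ∈ F`; about 90 lines).  PROOF.  `ζ = algebraMap F N z` satisfies `ζ^2 + ζ + 1 = 0`, so `ζ^3 = 1`, `ζ ≠ 1` (characteristic zero), and `ζ^i = ζ^j` with `i, j < 3` implies `i = j`; `ζ ^ (a + b).val = ζ ^ a.val * ζ ^ b.val` for `a b : ZMod 3`
(`ZMod.val_add`, `pow_mod`-type argument, or `fin_cases`/`decide` on `a`, `b`).
`kum_exists`: if `u` fixes `F`, `(u r)^3 = u (r^3) = r^3`, so `(u r / r)^3 = 1`, `(t - 1)(t - ζ)(t - ζ^2) = t^3 - 1`, so `u r = ζ^j r` with `j < 3`; define `a u` by choice (`if h : Fx F u then ..`). 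
`kum_mul`: `u (v r) = u (ζ^(a v) r) = ζ^(a v) ζ^(a u) r` (`u` fixes `ζ`), compare with `a (u * v)` (`r ≠ 0`); `u * v` fixes `F`.
`kum_zero`: `N / F` is Galois (`IsGalois.tower_top_of_isGalois ℚ F N`); every `σ : N ≃ₐ[F] N` fixes `r` (`u = σ.toRingEquiv`, `a u = 0`), so `r` is in the image of `F` (`IsGalois.mem_range_algebraMap_iff_fixed`).
-/

set_option autoImplicit false
open scoped Classical

open IsDedekindDomain NumberField H68TL

namespace H78N

variable {F N : Type} [Field F] [NumberField F] [Field N] [NumberField N] [Algebra F N] {z : F} {r : N}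

theorem kum_z3 (hz : z ^ 2 + z + 1 = 0) : (algebraMap F N z) ^ 2 + algebraMap F N z + 1 = 0 := by
  have := congrArg (algebraMap F N) hz
  simpa only [map_add, map_pow, map_one, map_zero] using this

theorem kum_cube (hz : z ^ 2 + z + 1 = 0) : (algebraMap F N z) ^ 3 = 1 := by
  have h := kum_z3 (N := N) hz
  linear_combination (algebraMap F N z - 1) * h

theorem kum_ne (hz : z ^ 2 + z + 1 = 0) : (algebraMap F N z) ≠ 1 := by
  intro h1
  have h := kum_z3 (N := N) hz
  rw [h1] at h
  norm_num at h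

theorem kum_ne0 (hz : z ^ 2 + z + 1 = 0) : (algebraMap F N z) ≠ 0 := by
  intro h1
  have h := kum_z3 (N := N) hz
  rw [h1] at h
  norm_num at h

theorem kum_ne2 (hz : z ^ 2 + z + 1 = 0) : (algebraMap F N z) ^ 2 ≠ 1 := by
  intro h1
  have h3 := kum_cube (N := N) hz
  apply kum_ne (N := N) hz
  linear_combination h3 - (algebraMap F N z) * h1

theorem kum_pow (hz : z ^ 2 + z + 1 = 0) {i j : ZMod 3}
    (h : algebraMap F N z ^ i.val * r = algebraMap F N z ^ j.val * r) (hr : r ≠ 0) : i = j := by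
  have h' := mul_right_cancel₀ hr h
  have h0 := kum_ne0 (N := N) hz
  have h1 := kum_ne (N := N) hz
  have h2 := kum_ne2 (N := N) hz
  have e0 : (0 : ZMod 3).val = 0 := rfl
  have e1 : (1 : ZMod 3).val = 1 := rfl
  have e2 : (2 : ZMod 3).val = 2 := rfl
  have hc : ∀ i : ZMod 3, i = 0 ∨ i = 1 ∨ i = 2 := by decide
  rcases hc i with rfl | rfl | rfl <;> rcases hc j with rfl | rfl | rfl <;>
    simp only [e0, e1, e2, pow_zero, pow_one] at h' <;> try rfl
  · exact absurd h'.symm h1
  · exact absurd h'.symm h2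
  · exact absurd h' h1
  · exfalso
    apply h1
    have : algebraMap F N z * (algebraMap F N z) = algebraMap F N z * 1 := by rw [← pow_two, ← h', mul_one]
    exact mul_left_cancel₀ h0 this
  · exact absurd h' h2
  · exfalso
    apply h1
    have : algebraMap F N z * (algebraMap F N z) = algebraMap F N z * 1 := by rw [← pow_two, h', mul_one]
    exact mul_left_cancel₀ h0 this

theorem kum_add (hz : z ^ 2 + z + 1 = 0) (i j : ZMod 3) :
    algebraMap F N z ^ (i + j).val = algebraMap F N z ^ i.val * algebraMap F N z ^ j.val := by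
  have h3 := kum_cube (N := N) hz
  rw [← pow_add, ZMod.val_add]
  conv_rhs => rw [← Nat.mod_add_div (i.val + j.val) 3, pow_add, pow_mul, h3, one_pow, mul_one]

theorem kum_root (hz : z ^ 2 + z + 1 = 0) {t : N} (ht : t ^ 3 = 1) : ∃ j : ZMod 3, t = algebraMap F N z ^ j.val := by
  have h := kum_z3 (N := N) hz
  have h3 := kum_cube (N := N) hz
  set w := algebraMap F N z with hw
  have : (t - 1) * ((t - w) * (t - w ^ 2)) = 0 := by
    linear_combination ht - h3 - t ^ 2 * h + t * w * h
  have e0 : (0 : ZMod 3).val = 0 := rfl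
  have e1 : (1 : ZMod 3).val = 1 := rfl
  have e2 : (2 : ZMod 3).val = 2 := rfl
  rcases mul_eq_zero.mp this with h | h
  · exact ⟨0, by rw [e0, pow_zero]; exact sub_eq_zero.mp h⟩
  rcases mul_eq_zero.mp h with h | h
  · exact ⟨1, by rw [e1, pow_one]; exact sub_eq_zero.mp h⟩
  · exact ⟨2, by rw [e2]; exact sub_eq_zero.mp h⟩

theorem kum_exists (hz : z ^ 2 + z + 1 = 0) (hr : r ≠ 0) (h3 : ∃ x : F, r ^ 3 = algebraMap F N x) :
    ∃ a : (N ≃+* N) → ZMod 3, Kum F z r a := by
  obtain ⟨x, hx⟩ := h3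
  have key : ∀ u : N ≃+* N, H68TL.Fx F u → ∃ j : ZMod 3, u r = algebraMap F N z ^ j.val * r := by
    intro u hu
    have h1 : (u r / r) ^ 3 = 1 := by
      rw [div_pow, ← map_pow, hx, hu x, ← hx, div_self (pow_ne_zero 3 hr)]
    obtain ⟨j, hj⟩ := kum_root (F := F) hz h1
    exact ⟨j, by rw [← hj, div_mul_cancel₀ _ hr]⟩
  refine ⟨fun u => if h : H68TL.Fx F u then Classical.choose (key u h) else 0, ?_⟩
  intro u hu
  simp only [hu, dif_pos]
  exact Classical.choose_spec (key u hu)

theorem kum_mul (hz : z ^ 2 + z + 1 = 0) (hr : r ≠ 0) {a : (N ≃+* N) → ZMod 3} (ha : Kum F z r a) (u v : N ≃+* N)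
    (hu : Fx F u) (hv : Fx F v) : a (u * v) = a u + a v := by
  have huv : Fx F (u * v) := by
    intro x
    rw [RingAut.mul_apply, hv x, hu x]
  have h1 := ha (u * v) huv
  have h2 : (u * v) r = algebraMap F N z ^ (a u + a v).val * r := by
    rw [RingAut.mul_apply, ha v hv, map_mul, map_pow, hu z, ha u hu, kum_add hz]
    ring
  exact kum_pow hz (h1.symm.trans h2) hr

theorem kum_zero [IsGalois ℚ N] {a : (N ≃+* N) → ZMod 3} (ha : Kum F z r a) (h : ∀ u, Fx F u → a u = 0) :
    ∃ y : F, algebraMap F N y = r := by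
  have : IsGalois F N := IsGalois.tower_top_of_isGalois ℚ F N
  have h1 : r ∈ Set.range (algebraMap F N) := by
    rw [IsGalois.mem_range_algebraMap_iff_fixed]
    intro σ
    have hσ : Fx F σ.toRingEquiv := by
      intro x
      exact σ.commutes x
    have h2 := ha σ.toRingEquiv hσ
    rw [h _ hσ] at h2
    have e0 : (0 : ZMod 3).val = 0 := rfl
    rw [e0, pow_zero, one_mul] at h2
    exact h2
  exact h1

end H78N
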