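import Pool.Agent.H78.MN.Ka

/-!
ROW Kb (conjugates and the norm of the Kummer character; about 130 lines).  Use only the STATEMENTS of Ka.  PROOF.  `ζ = algebraMap F N z`, `r^3 = algebraMap F N x`.
`kum_conj`: `t` extends `g : F ≃+* F`. `g z = z` or `g z = z^2` as `g z` is a root of `T^2 + T + 1`; let `y` satisfy `t y = r` (`y = t.symm r`); `y^3 = algebraMap F N (g.symm x)` is in `F`, so `u y = ζ^j y` for `j = b`, `b` = Kummer character of `y` (`kum_exists`: `b` with `Kum F z y b`).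
`t u t⁻¹ r = t (u y) = t (ζ^(b u)) t y = (g z)^(b u) r`.
 `kum_J`: `J z = z^2`, `J x = x`: `(t y)^3 = r^3` and `y^3 = t⁻¹ (r^3) = algebraMap F N (J.symm x) = r^3` (`J.symm x = x`), so `y = ζ^i r` for some `i < 3` (`(y / r)^3 = 1`), so `u y = ζ^i u r = ζ^(a u) y`, and `t u t⁻¹ r = t (ζ^(a u)) r = ζ^(2 a u) r = ζ^(-a u) r`
 (`t` extends `J`; `kum_pow`; `2 i = -i` in `ZMod 3`, `decide`); `t * u * t⁻¹` fixes `F`.
 `kum_norm`: `r' h : N ≃+* N` (called `R`) extends `h ∈ Gal(F/Km)`, `z` is in the image of `Km`, so `R h` fixes `ζ`. Let `y h = (R h)⁻¹ r`, `(y h)^3 = algebraMap F N (h⁻¹ x)`; `u (y h) = ζ^(b h) y h` for some `b h : ZMod 3` (as in `kum_exists`, or `kum_exists` for `y h`), and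
 `(R h * u * (R h)⁻¹) r = R h (ζ^(b h) y h) = ζ^(b h) r`, so `a (R h * u * (R h)⁻¹) = b h` (`kum_pow`). `Y = ∏_h y h`: `u Y = ∏ ζ^(b h) y h = ζ^(∑ b h) Y` (`kum_add`, induction over the finset; `map_prod`), and `Y^3 = ∏_h algebraMap F N (h⁻¹ x) = algebraMap F N (∏_h h x)`
 (reindex by `h ↦ h⁻¹`: `Equiv.inv`, `Fintype.prod_equiv`) `= algebraMap F N (algebraMap Km F (Algebra.norm Km x))` (`Algebra.norm_eq_prod_automorphisms`) `= (algebraMap F N c)^3`, so `Y = ζ^i algebraMap F N c`, fixed by `u`. `Y ≠ 0`. So `∑ b h = 0` (`kum_pow` with `j = 0`).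
-/

set_option autoImplicit false
open scoped Classical

open IsDedekindDomain NumberField H68TL

namespace H78N

variable {F N : Type} [Field F] [NumberField F] [Field N] [NumberField N] [Algebra F N] {z : F} {r : N}

theorem Kb_cube (hz : z ^ 2 + z + 1 = 0) {w y : N} (h : w ^ 3 = y ^ 3) :
    ∃ j : ZMod 3, w = algebraMap F N z ^ j.val * y := by
  have hζ : algebraMap F N z ^ 2 + algebraMap F N z + 1 = 0 := by
    rw [← map_pow, ← map_one (algebraMap F N), ← map_add, ← map_add, hz, map_zero]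
  generalize algebraMap F N z = e at hζ
  have h1 : (w - y) * ((w - e * y) * (w - e ^ 2 * y)) = 0 := by
    linear_combination h + (w ^ 2 * (-y) + w * y ^ 2 * e + y ^ 3 * (1 - e)) * hζ
  rcases mul_eq_zero.1 h1 with h2 | h2
  · refine ⟨0, ?_⟩
    rw [ZMod.val_zero, pow_zero, one_mul]
    exact sub_eq_zero.1 h2
  rcases mul_eq_zero.1 h2 with h3 | h3
  · refine ⟨1, ?_⟩
    have e1 : (1 : ZMod 3).val = 1 := rfl
    rw [e1, pow_one]
    exact sub_eq_zero.1 h3
  · refine ⟨2, ?_⟩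
    have e1 : (2 : ZMod 3).val = 2 := rfl
    rw [e1]
    exact sub_eq_zero.1 h3

theorem Kb_neg (hz : z ^ 2 + z + 1 = 0) (j : ZMod 3) :
    (algebraMap F N z ^ 2) ^ j.val = algebraMap F N z ^ (-j).val := by
  have hζ : algebraMap F N z ^ 2 + algebraMap F N z + 1 = 0 := by
    rw [← map_pow, ← map_one (algebraMap F N), ← map_add, ← map_add, hz, map_zero]
  generalize algebraMap F N z = e at hζ
  fin_cases j
  · show (e ^ 2) ^ 0 = e ^ 0
    rw [pow_zero, pow_zero]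
  · show (e ^ 2) ^ 1 = e ^ 2
    rw [pow_one]
  · show (e ^ 2) ^ 2 = e ^ 1
    linear_combination (e ^ 2 - e) * hζ

omit [NumberField F] [NumberField N] in
theorem Kb_inv {t : N ≃+* N} {g : F ≃+* F} (ht : Ext t g) (x : F) :
    t⁻¹ (algebraMap F N x) = algebraMap F N (g.symm x) := by
  have h1 : t (algebraMap F N (g.symm x)) = algebraMap F N x := by
    rw [ht, RingEquiv.apply_symm_apply]
  rw [← h1]
  exact RingEquiv.symm_apply_apply t _

omit [NumberField F] [NumberField N] in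
theorem Kb_fx {t : N ≃+* N} {g : F ≃+* F} (ht : Ext t g) {u : N ≃+* N} (hu : Fx F u) :
    Fx F (t * u * t⁻¹) := by
  intro x
  show t (u (t⁻¹ (algebraMap F N x))) = _
  rw [Kb_inv ht, hu, ht, RingEquiv.apply_symm_apply]

theorem Kb_sum (hz : z ^ 2 + z + 1 = 0) {ι : Type} (s : Finset ι) (b : ι → ZMod 3) :
    ∏ i ∈ s, algebraMap F N z ^ (b i).val = algebraMap F N z ^ (∑ i ∈ s, b i).val := by
  induction s using Finset.induction_on with
  | empty => simp
  | insert i s hi ih => rw [Finset.prod_insert hi, Finset.sum_insert hi, kum_add hz, ih]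

theorem kum_J (hz : z ^ 2 + z + 1 = 0) (hr : r ≠ 0) {x : F} (hx : r ^ 3 = algebraMap F N x)
    {a : (N ≃+* N) → ZMod 3} (ha : Kum F z r a) {J : F ≃+* F} (hJz : J z = z ^ 2) (hJx : J x = x) (t : N ≃+* N)
    (ht : Ext t J) (u : N ≃+* N) (hu : Fx F u) : a (t * u * t⁻¹) = -a u := by
  have hy1 : t (t⁻¹ r) = r := RingEquiv.apply_symm_apply t r
  generalize hy : t⁻¹ r = y at hy1
  have hxs : J.symm x = x := by
    rw [RingEquiv.symm_apply_eq, hJx]
  have hy3 : y ^ 3 = r ^ 3 := by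
    rw [← hy, ← map_pow, hx, Kb_inv ht, hxs]
  obtain ⟨i, hi⟩ := Kb_cube hz hy3
  have h1 : u y = algebraMap F N z ^ (a u).val * y := by
    rw [hi, map_mul, map_pow, hu, ha u hu]
    ring
  have h2 : (t * u * t⁻¹) r = algebraMap F N z ^ (-a u).val * r := by
    show t (u (t⁻¹ r)) = _
    rw [hy, h1, map_mul, map_pow, ht, hJz, map_pow, hy1, Kb_neg hz]
  have h3 := ha _ (Kb_fx ht hu)
  rw [h2] at h3
  exact (kum_pow hz h3 hr).symm

theorem kum_norm {Km : Type} [Field Km] [NumberField Km] [Algebra Km F] [IsGalois Km F]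
    (hz : z ^ 2 + z + 1 = 0) (hzK : ∃ z0 : Km, algebraMap Km F z0 = z) (hr : r ≠ 0) {x : F}
    (hx : r ^ 3 = algebraMap F N x) (hN : ∃ c : F, algebraMap Km F (Algebra.norm Km x) = c ^ 3)
    {a : (N ≃+* N) → ZMod 3} (ha : Kum F z r a) (R : (F ≃ₐ[Km] F) → (N ≃+* N))
    (hR : ∀ h, Ext (R h) (h : F ≃+* F)) (u : N ≃+* N) (hu : Fx F u) : ∑ h, a (R h * u * (R h)⁻¹) = 0 := by
  obtain ⟨z0, hz0⟩ := hzK
  obtain ⟨c, hc⟩ := hN
  have hy1 : ∀ h, R h ((R h)⁻¹ r) = r := fun h => RingEquiv.apply_symm_apply (R h) r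
  have hy3 : ∀ h : F ≃ₐ[Km] F, ((R h)⁻¹ r) ^ 3 = algebraMap F N (h⁻¹ x) := by
    intro h
    rw [← map_pow, hx, Kb_inv (hR h)]
    rfl
  have hb : ∀ h : F ≃ₐ[Km] F, ∃ b : ZMod 3, u ((R h)⁻¹ r) = algebraMap F N z ^ b.val * (R h)⁻¹ r := by
    intro h
    refine Kb_cube hz ?_
    rw [← map_pow, hy3, hu]
  choose b hb using hb
  have hab : ∀ h, a (R h * u * (R h)⁻¹) = b h := by
    intro h
    have h1 : (R h * u * (R h)⁻¹) r = algebraMap F N z ^ (b h).val * r := by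
      show R h (u ((R h)⁻¹ r)) = _
      have h4 : (h : F ≃+* F) z = z := by
        rw [← hz0]
        exact h.commutes z0
      rw [hb h, map_mul, map_pow, hR h, h4, hy1]
    have h3 := ha _ (Kb_fx (hR h) hu)
    rw [h1] at h3
    exact (kum_pow hz h3 hr).symm
  rw [Finset.sum_congr rfl fun h _ => hab h]
  have hY0 : ∏ h : F ≃ₐ[Km] F, (R h)⁻¹ r ≠ 0 := by
    refine Finset.prod_ne_zero_iff.2 fun h _ => ?_
    intro h5
    apply hr
    rw [← hy1 h, h5, map_zero]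
  have hY3 : (∏ h : F ≃ₐ[Km] F, (R h)⁻¹ r) ^ 3 = (algebraMap F N c) ^ 3 := by
    rw [← Finset.prod_pow, Finset.prod_congr rfl fun h _ => hy3 h, ← map_prod, ← map_pow, ← hc,
      Algebra.norm_eq_prod_automorphisms]
    congr 1
    exact Fintype.prod_equiv (Equiv.inv _) _ _ fun h => rfl
  obtain ⟨i, hi⟩ := Kb_cube hz hY3
  have hu1 : u (∏ h : F ≃ₐ[Km] F, (R h)⁻¹ r) = ∏ h : F ≃ₐ[Km] F, (R h)⁻¹ r := by
    rw [hi, map_mul, map_pow, hu, hu]
  have hu2 : u (∏ h : F ≃ₐ[Km] F, (R h)⁻¹ r) =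
      algebraMap F N z ^ (∑ h, b h).val * ∏ h : F ≃ₐ[Km] F, (R h)⁻¹ r := by
    rw [map_prod, Finset.prod_congr rfl fun h _ => hb h, Finset.prod_mul_distrib, Kb_sum hz]
  rw [hu1] at hu2
  refine (kum_pow (i := 0) hz ?_ hY0).symm
  rw [ZMod.val_zero, pow_zero, one_mul]
  exact hu2

end H78N
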