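import Pool.Agent.H78.MN.Gr
import Pool.Agent.H78.MN.Fm
import Pool.Agent.H5.SW.L3

/-!
ROW Lv (the level of a subfield of `ℚ(ζ_{p^(n+1)})`; about 90 lines).  PROOF.
`κ g = unitsMap (dvd_mul_left ..) (kp _ g)` is a surjective homomorphism `Gal(F/ℚ) → (ℤ/p^(n+1))ˣ` (`kp` is the isomorphism `galEquivZMod`; `ZMod.unitsMap_surjective`). `Φ = H5SW.L3aux.HH ψ` (the automorphisms fixing the image of `ψ`) contains the kernel of `κ`
(`fix_of_map_one` with `d = p^(n+1)`), `|Φ| [A : ℚ] = [F : ℚ]` (`H5SW.L3aux.card_HH`, `IsGalois ℚ F` by `IsCyclotomicExtension.isGalois`), so `Φ.index = [A : ℚ]` (`Subgroup.card_mul_index`, `IsGalois.card_aut_eq_finrank`), and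
`V = Φ.map κ` has the same index (`Subgroup.index_map`, kernel in `Φ`, range everything). Since the index of `V` divides `|(ℤ/p^(n+1))ˣ| = p^n (p - 1)` (`Subgroup.index_dvd_card`), `m = padicValNat p V.index ≤ n`. Apply `gr`:
first claim: `κ g` is in `V`, so `κ g = κ g'`, `g' ∈ Φ`, `g g'⁻¹` is in the kernel, so in `Φ`, `g ∈ Φ`. Second claim: directly (`map_pow` not needed: the statement of `gr` for `v = κ g`).
-/

set_option autoImplicit false
open scoped Classical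

open NumberField H78M

namespace H78N

theorem level {p M m n : ℕ} [Fact p.Prime] [NeZero M] (hp2 : p ≠ 2) {A F : Type} [Field A]
    [NumberField A] [Field F] [NumberField F] [IsCyclotomicExtension {M * p ^ (n + 1)} ℚ F]
    (e : A →+* CyclotomicField (p ^ (n + 1)) ℚ) (ψ : A →+* F) (hm : padicValNat p (Module.finrank ℚ A) = m) :
    ∃ hmn : m ≤ n, (∀ g : F ≃ₐ[ℚ] F, ZMod.unitsMap (pow_dvd_pow p (Nat.succ_le_succ hmn))
      (ZMod.unitsMap (dvd_mul_left (p ^ (n + 1)) M) (kp (M * p ^ (n + 1)) g)) = 1 → ∀ x, g (ψ x) = ψ x) ∧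
      ∀ g : F ≃ₐ[ℚ] F, (∀ x, g (ψ x) = ψ x) → ZMod.unitsMap (pow_dvd_pow p (Nat.succ_le_succ hmn))
        ((ZMod.unitsMap (dvd_mul_left (p ^ (n + 1)) M) (kp (M * p ^ (n + 1)) g)) ^ (p - 1)) = 1 := by
  have hp : p.Prime := Fact.out
  haveI : NeZero (M * p ^ (n + 1)) := ⟨mul_ne_zero (NeZero.ne M) (pow_ne_zero _ hp.ne_zero)⟩
  haveI : NeZero (p ^ (n + 1)) := ⟨pow_ne_zero _ hp.ne_zero⟩
  haveI hG : IsGalois ℚ F := IsCyclotomicExtension.isGalois {M * p ^ (n + 1)} ℚ F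
  have hd : p ^ (n + 1) ∣ M * p ^ (n + 1) := dvd_mul_left _ _
  let κ : (F ≃ₐ[ℚ] F) →* (ZMod (p ^ (n + 1)))ˣ :=
    (ZMod.unitsMap hd).comp (IsCyclotomicExtension.Rat.galEquivZMod (M * p ^ (n + 1)) F).toMonoidHom
  have hκ : ∀ g, κ g = ZMod.unitsMap hd (kp (M * p ^ (n + 1)) g) := fun g => rfl
  have hsurj : Function.Surjective κ := by
    intro u
    obtain ⟨v, hv⟩ := ZMod.unitsMap_surjective hd u
    obtain ⟨g, hg⟩ := (IsCyclotomicExtension.Rat.galEquivZMod (M * p ^ (n + 1)) F).surjective v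
    refine ⟨g, ?_⟩
    rw [hκ, ← hv]
    exact congrArg _ hg
  have hker : κ.ker ≤ H5SW.L3aux.HH ψ := by
    intro g hg x
    exact fix_of_map_one (d := p ^ (n + 1)) hd e ψ g hg x
  have hidx : (H5SW.L3aux.HH ψ).index = Module.finrank ℚ A := by
    have h1 := H5SW.L3aux.card_HH ψ
    have h2 := (H5SW.L3aux.HH ψ).card_mul_index
    rw [IsGalois.card_aut_eq_finrank ℚ F, ← h1] at h2
    exact Nat.eq_of_mul_eq_mul_left Nat.card_pos h2
  have hV : ((H5SW.L3aux.HH ψ).map κ).index = Module.finrank ℚ A := by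
    rw [Subgroup.index_map, sup_eq_left.mpr hker, MonoidHom.range_eq_top.mpr hsurj, Subgroup.index_top,
      mul_one, hidx]
  have hmn : m ≤ n := by
    have h1 : ((H5SW.L3aux.HH ψ).map κ).index ∣ Nat.card (ZMod (p ^ (n + 1)))ˣ := Subgroup.index_dvd_card _
    rw [Nat.card_eq_fintype_card, ZMod.card_units_eq_totient, Nat.totient_prime_pow_succ hp, hV] at h1
    have h0 : p ^ n * (p - 1) ≠ 0 := mul_ne_zero (pow_ne_zero _ hp.ne_zero) (Nat.sub_ne_zero_of_lt hp.one_lt)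
    have h2 : p ^ m ∣ p ^ n * (p - 1) := dvd_trans (by rw [← hm]; exact pow_padicValNat_dvd) h1
    have h3 : Nat.Coprime (p ^ m) (p - 1) := by
      apply Nat.Coprime.pow_left
      rw [Nat.Prime.coprime_iff_not_dvd hp]
      intro h4
      have := Nat.le_of_dvd (Nat.sub_pos_of_lt hp.one_lt) h4
      have := hp.one_lt
      omega
    exact (Nat.pow_dvd_pow_iff_le_right hp.one_lt).mp (h3.dvd_of_dvd_mul_right h2)
  obtain ⟨g1, g2⟩ := gr hp2 hmn ((H5SW.L3aux.HH ψ).map κ) (by rw [hV]; exact hm)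
  refine ⟨hmn, ?_, ?_⟩
  · intro g hg
    obtain ⟨g', hg', he⟩ := g1 (κ g) hg
    have h1 : g * g'⁻¹ ∈ κ.ker := by
      rw [MonoidHom.mem_ker, map_mul, map_inv, he, mul_inv_cancel]
    have h2 : g * g'⁻¹ ∈ H5SW.L3aux.HH ψ := hker h1
    have h3 := mul_mem h2 hg'
    rw [inv_mul_cancel_right] at h3
    exact h3
  · intro g hg
    exact g2 (κ g) ⟨g, hg, rfl⟩

end H78N
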