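import Pool.Agent.H78.MN.Fin

/-!
The minus side over the rationals, all `D > 0` (for MP_78d38b_T3D; helper78, no row).
-/

set_option autoImplicit false
open scoped Classical

open IsDedekindDomain NumberField H78M H68QS H5SW

namespace H78N

/-- a pair `K ⊆ L` as a compositum over the rationals -/
theorem comp_rat (K L : Type) [Field K] [NumberField K] [Field L] [NumberField L] [Algebra K L] :
    Nonempty (Comp ℚ K L K L) := by
  refine ⟨⟨algebraMap ℚ K, RingHom.id K, RingHom.id L, fun x => rfl, ?_, ?_⟩⟩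
  · rw [eq_top_iff]
    intro x _
    exact IntermediateField.subset_adjoin _ _ (Or.inr ⟨x, rfl⟩)
  · rw [eq_top_iff]
    intro x _
    exact IntermediateField.subset_adjoin _ _ (Or.inr ⟨x, rfl⟩)

/-- The minus side over the rationals: `C = L(s)`, `s^2 = -3 D`, `D` a positive integer. -/
theorem minusQ {p : ℕ} [Fact p.Prime] (hp2 : p ≠ 2) (hp3 : p ≠ 3) {D : ℤ} (hD : 0 < D) :
    ∃ N : ℕ, ∀ (K L : Type) [Field K] [NumberField K] [Field L] [NumberField L] [Algebra K L], IsR p L →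
      (∃ i : ℕ, Module.finrank K L = p ^ i) → p ^ N ∣ Module.finrank ℚ K →
      ∀ (C : Type) [Field C] [NumberField C] [Algebra L C] [Algebra K C] [IsScalarTower K L C] (s : C),
        s ^ 2 = -3 * (D : C) → IntermediateField.adjoin L {s} = ⊤ → H55T3.NoNewMinus K L C s := by
  obtain ⟨n, rfl⟩ : ∃ n : ℕ, D = n := ⟨D.toNat, by omega⟩
  have hn : n ≠ 0 := by
    rintro rfl
    exact lt_irrefl 0 (by exact_mod_cast hD)
  have hne : NeZero (24 * n) := ⟨mul_ne_zero (by norm_num) hn⟩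
  obtain ⟨N, hN⟩ := noNewMinus_comp (p := p) (f := 24 * n) hp2 hp3 hne.ne
  have i1 := cyc_inst (24 * n)
  refine ⟨N, ?_⟩
  intro K L _ _ _ _ _ hL hi hNK C _ _ _ _ _ s hs hgen
  obtain ⟨X⟩ := comp_rat K L
  have hζ := IsCyclotomicExtension.zeta_spec (24 * n) ℚ (CyclotomicField (24 * n) ℚ)
  obtain ⟨y, hy⟩ := sqrt_neg3 hn hζ
  refine hN ℚ (algebraMap ℚ (CyclotomicField (24 * n) ℚ)) (-3 * (n : ℚ)) ⟨y, ?_⟩ ?_ K L K L X hL hi hNK hL.1 C s ?_ hgen
  · rw [hy]
    simp
  · intro σ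
    have h1 : σ (-3 * (n : ℚ)) = -3 * (n : ℝ) := by simp
    rw [h1]
    have h2 : (0 : ℝ) < n := by exact_mod_cast Nat.pos_of_ne_zero hn
    linarith
  · have h3 : ((algebraMap L C).comp ((algebraMap K L).comp X.f)) (-3 * (n : ℚ)) = -3 * ((n : ℤ) : C) := by
      rw [map_mul, map_neg, map_ofNat, map_natCast, Int.cast_natCast]
    rw [hs, ← h3]
    rfl

end H78N
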