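import Pool.Agent.H78.MN.Dn
import Pool.Agent.H78.MN.Lv
import Pool.Agent.H78.MN.Em

/-!
ROW Tw (the pair `K ⊆ L` inside `Km ⊆ F`; about 230 lines).  Use only the STATEMENTS of Lv, Em, Fm.  PROOF.  `G = Gal(F/ℚ)` is commutative (`kp` is an isomorphism with a commutative group).
Notation: `κ g = unitsMap (dvd_mul_left (p^(n+1)) M) (kp _ g)`, `N = M p^(n+1)`.
(1) `ι : L →+* F` from `exists_emb C φ' ψ'` with `φ' = ψ` and `ψ' : L' →+* F` the composite of `e` and an embedding `CyclotomicField (p^(n+1)) ℚ →+* F` (`F` contains the primitive root `ζ^M`; see the header of Fm). `Algebra L F := ι.toAlgebra`, `Algebra K F` the composite.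
(2) `Km` := `IntermediateField.adjoin ℚ {ζ ^ (p^(n-m))}` in `F`, `ζ ^ (p^(n-m))` is a primitive root of order `M p^(m+1)` (`IsPrimitiveRoot.pow`), `IsPrimitiveRoot.intermediateField_adjoin_isCyclotomicExtension`. By `H78M.inH_iff hmn` `g` fixes `Km` iff
`InH g`; an element of `F` fixed by all `g` with `InH g` is in `Km` (Galois correspondence: `IsGalois Km F`, `IsGalois.mem_range_algebraMap_iff_fixed`, `AlgEquiv.restrictScalars ℚ`).
(3) Let `InH g`. Then `g` fixes `ψ k`: `fix_of_map_one` with `d = M p^(a+1)`, `e := φ` (`unitsMap` to `M p^(a+1)` factors through `M p^(m+1)`, `ZMod.unitsMap_comp`); and `κ g = 1` modulo `p^(m+1)` (`unitsMap` to `p^(m+1)` through `M p^(m+1)`), so `g` fixes the image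
of `K'` by the first part of `level` (for `A = K'`, embeddings `e.comp (algebraMap K' L')` and `ι ∘ (algebraMap K L) ∘ C.g`; note `C.comm`). By `C.genK` (the set of `x : K` with `g (ι x) = ι x` is a subfield: `RingHom.eqLocusField`, `H68IM.gen_mem` in
`Pool/Agent/H68/IM` or `IntermediateField.adjoin_le_iff`) `g` fixes `K`. So by (2) the image of `K` is in `Km`: `Algebra K Km` (`RingHom.codRestrict`), `IsScalarTower K Km F` and `IsScalarTower K L F` by `of_algebraMap_eq`.
(4) `gal`: `F / ℚ` Galois: `IsGalois.tower_top_of_isGalois ℚ K F`. `comm`: restrict scalars to `ℚ`. `galL`: `IsAbelianGalois K F`, `IsAbelianGalois.tower_bot K L F` (see `Mi.lean`).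
(5) `cov`: `h : L ≃ₐ[K] L`. Lift `h` to `g0 : F ≃ₐ[K] F` with `g0 (ι x) = ι (h x)` (`AlgEquiv.restrictNormalHom_surjective` or `AlgEquiv.liftNormal`). `v = κ g0` (restrict scalars to `ℚ`). `g0` fixes the image of `K'`, so `v^(p-1) = 1` modulo `p^(m+1)` by the second part of `level`.
`[L : K] = p^i`, so `h^(p^i) = 1` (`IsGalois.card_aut_eq_finrank`, `pow_card_eq_one'`), and there is `c` with `(p-1) c = 1` modulo `p^i` (`Nat.Coprime`, `Nat.exists_mul_emod_eq_one_of_coprime`; for `i = 0` any `c`), so `h^((p-1)c) = h`.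
Let `g' ∈ G` with `kp g' = 1` modulo `M` and `= v^((p-1)c)` modulo `p^(n+1)` (the isomorphism `(ℤ/M p^(n+1))ˣ ≅ (ℤ/M)ˣ × (ℤ/p^(n+1))ˣ` for `p` prime to `M`; copy the private lemmas `MgSb_exists`, `MgSb_inj` at the beginning of `Pool/Agent/H78/MH/Mg.lean`).
`InH g'`: the image of `kp g'` in `(ℤ/M p^(m+1))ˣ` is `1` modulo `M` and modulo `p^(m+1)`, so it is `1` (`MgSb_inj`). So `g'` fixes `Km` and gives an element `g` of `Gal(F/Km)`. `g0^((p-1)c)` and `g'` have the same `κ`, so `t = g'⁻¹ g0^((p-1)c)` has `κ t = 1`: it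
fixes the image of `L'` (`fix_of_map_one` with `d = p^(n+1)`, `e`), and it fixes `ψ k` (both do). So `t` fixes `L` (`C.genL`), and `g' (ι x) = g0^((p-1)c) (ι x) = ι (h^((p-1)c) x) = ι (h x)`.
The last claim is the property of `ι`.
-/

set_option autoImplicit false
open scoped Classical

open NumberField H78M H68QS

namespace H78N

private theorem Tw_comp {a b c : ℕ} (h1 : a ∣ b) (h2 : b ∣ c) (t : (ZMod c)ˣ) :
    ZMod.unitsMap h1 (ZMod.unitsMap h2 t) = ZMod.unitsMap (h1.trans h2) t := by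
  rw [← ZMod.unitsMap_comp h1 h2]
  rfl

/-- joint injectivity -/
private theorem Tw_inj {M f : ℕ} (h : Nat.Coprime M f) {t t' : (ZMod (M * f))ˣ}
    (h1 : ZMod.unitsMap (dvd_mul_right M f) t = ZMod.unitsMap (dvd_mul_right M f) t')
    (h2 : ZMod.unitsMap (dvd_mul_left f M) t = ZMod.unitsMap (dvd_mul_left f M) t') : t = t' := by
  have c1 := Subsingleton.elim ((RingHom.fst _ _).comp (ZMod.chineseRemainder h).toRingHom)
    (ZMod.castHom (dvd_mul_right M f) (ZMod M))
  have c2 := Subsingleton.elim ((RingHom.snd _ _).comp (ZMod.chineseRemainder h).toRingHom)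
    (ZMod.castHom (dvd_mul_left f M) (ZMod f))
  have e1 := congrArg Units.val h1
  have e2 := congrArg Units.val h2
  apply Units.ext
  apply (ZMod.chineseRemainder h).injective
  apply Prod.ext
  · have a1 := RingHom.congr_fun c1 (t : ZMod (M * f))
    have a2 := RingHom.congr_fun c1 (t' : ZMod (M * f))
    exact a1.trans (e1.trans a2.symm)
  · have a1 := RingHom.congr_fun c2 (t : ZMod (M * f))
    have a2 := RingHom.congr_fun c2 (t' : ZMod (M * f))
    exact a1.trans (e2.trans a2.symm)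

/-- the units with prescribed images -/
private theorem Tw_exists {M f : ℕ} (h : Nat.Coprime M f) (u : (ZMod f)ˣ) :
    ∃ t : (ZMod (M * f))ˣ, ZMod.unitsMap (dvd_mul_right M f) t = 1 ∧
      ZMod.unitsMap (dvd_mul_left f M) t = u := by
  have c1 := Subsingleton.elim ((RingHom.fst _ _).comp (ZMod.chineseRemainder h).toRingHom)
    (ZMod.castHom (dvd_mul_right M f) (ZMod M))
  have c2 := Subsingleton.elim ((RingHom.snd _ _).comp (ZMod.chineseRemainder h).toRingHom)
    (ZMod.castHom (dvd_mul_left f M) (ZMod f))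
  refine ⟨Units.map ((ZMod.chineseRemainder h).symm.toRingHom : _ →* _)
    ((MulEquiv.prodUnits (M := ZMod M) (N := ZMod f)).symm (1, u)), ?_, ?_⟩
  · apply Units.ext
    have a1 := RingHom.congr_fun c1
      ((ZMod.chineseRemainder h).symm (((1 : (ZMod M)ˣ) : ZMod M), (u : ZMod f)))
    refine a1.symm.trans ?_
    change ((ZMod.chineseRemainder h) ((ZMod.chineseRemainder h).symm _)).1 = _
    rw [RingEquiv.apply_symm_apply]
  · apply Units.ext
    have a1 := RingHom.congr_fun c2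
      ((ZMod.chineseRemainder h).symm (((1 : (ZMod M)ˣ) : ZMod M), (u : ZMod f)))
    refine a1.symm.trans ?_
    change ((ZMod.chineseRemainder h) ((ZMod.chineseRemainder h).symm _)).2 = _
    rw [RingEquiv.apply_symm_apply]

/-- the cyclotomic field of level `d ∣ N` in the field of level `N` -/
private theorem Tw_cyc {N d : ℕ} (hN : N ≠ 0) (hd : d ∣ N) {F : Type} [Field F] [NumberField F]
    [IsCyclotomicExtension {N} ℚ F] : Nonempty (CyclotomicField d ℚ →+* F) := by
  have hd0 : d ≠ 0 := fun h => hN (by rw [h] at hd; exact zero_dvd_iff.1 hd)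
  have hne : NeZero N := ⟨hN⟩
  have hned : NeZero d := ⟨hd0⟩
  have hζ := IsCyclotomicExtension.zeta_spec N ℚ F
  obtain ⟨c, hc⟩ := hd
  have hζd : IsPrimitiveRoot (IsCyclotomicExtension.zeta N ℚ F ^ c) d :=
    IsPrimitiveRoot.pow (Nat.pos_of_ne_zero hN) hζ (by rw [hc, mul_comm])
  have h1 : IsCyclotomicExtension {d} ℚ
      (IntermediateField.adjoin ℚ {IsCyclotomicExtension.zeta N ℚ F ^ c}) :=
    hζd.intermediateField_adjoin_isCyclotomicExtension ℚ
  have h2 : IsCyclotomicExtension {d} ℚ (CyclotomicField d ℚ) :=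
    CyclotomicField.isCyclotomicExtension _ _
  have e := IsCyclotomicExtension.algEquiv {d} ℚ (CyclotomicField d ℚ)
    (IntermediateField.adjoin ℚ {IsCyclotomicExtension.zeta N ℚ F ^ c})
  exact ⟨((IntermediateField.adjoin ℚ {IsCyclotomicExtension.zeta N ℚ F ^ c}).val.toRingHom).comp
    e.toRingEquiv.toRingHom⟩

/-- restricting scalars to the rationals -/
private theorem Tw_aut {Km F : Type} [Field Km] [NumberField Km] [Field F] [NumberField F] [Algebra Km F]
    (g : F ≃ₐ[ℚ] F) (h : ∀ x : Km, g (algebraMap Km F x) = algebraMap Km F x) :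
    ∃ g' : F ≃ₐ[Km] F, ∀ x, g' x = g x :=
  ⟨AlgEquiv.ofRingEquiv (f := (g : F ≃+* F)) h, fun _ => rfl⟩

private theorem Tw_main {p M a m n : ℕ} [Fact p.Prime] [NeZero M] (hp2 : p ≠ 2) (hpM : p.Coprime M) (ham : a ≤ m)
    (hmn : m ≤ n)
    {k K' L' K L F Km : Type} [Field k] [NumberField k] [Field K'] [NumberField K'] [Field L'] [NumberField L']
    [Field K] [NumberField K] [Field L] [NumberField L] [Field F] [NumberField F] [Field Km] [NumberField Km]
    [Algebra K' L'] [Algebra K L] [Algebra Km F]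
    [IsCyclotomicExtension {M * p ^ (m + 1)} ℚ Km]
    [IsCyclotomicExtension {M * p ^ (n + 1)} ℚ F] (C : Comp k K' L' K L)
    (φ : k →+* CyclotomicField (M * p ^ (a + 1)) ℚ) (e : L' →+* CyclotomicField (p ^ (n + 1)) ℚ)
    (hm : padicValNat p (Module.finrank ℚ K') = m) {i : ℕ} (hi : Module.finrank K L = p ^ i) (ψ : k →+* F) :
    ∃ (_ : Algebra K Km) (_ : Algebra K F) (_ : IsScalarTower K Km F) (_ : Algebra L F)
      (_ : IsScalarTower K L F),
      SN K Km L F ∧ ∀ x : k, algebraMap L F (algebraMap K L (C.f x)) = ψ x := by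
  have hp : p.Prime := Fact.out
  have hM0 : M ≠ 0 := NeZero.ne M
  have hNm : M * p ^ (m + 1) ≠ 0 := mul_ne_zero hM0 (pow_ne_zero _ hp.ne_zero)
  have hNn : M * p ^ (n + 1) ≠ 0 := mul_ne_zero hM0 (pow_ne_zero _ hp.ne_zero)
  have hne1 : NeZero (M * p ^ (n + 1)) := ⟨hNn⟩
  have hne2 : NeZero (M * p ^ (m + 1)) := ⟨hNm⟩
  have hGQ : IsGalois ℚ F := IsCyclotomicExtension.isGalois {M * p ^ (n + 1)} ℚ F
  have hGKm : IsGalois Km F := IsGalois.tower_top_of_isGalois ℚ Km F
  -- divisibilities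
  have dmn : p ^ (m + 1) ∣ p ^ (n + 1) := pow_dvd_pow p (Nat.succ_le_succ hmn)
  have dMmn : M * p ^ (m + 1) ∣ M * p ^ (n + 1) := Nat.mul_dvd_mul_left M dmn
  have dan : M * p ^ (a + 1) ∣ M * p ^ (n + 1) :=
    Nat.mul_dvd_mul_left M (pow_dvd_pow p (Nat.succ_le_succ (ham.trans hmn)))
  have dam : M * p ^ (a + 1) ∣ M * p ^ (m + 1) :=
    Nat.mul_dvd_mul_left M (pow_dvd_pow p (Nat.succ_le_succ ham))
  -- the embedding
  obtain ⟨jc⟩ := Tw_cyc (N := M * p ^ (n + 1)) (d := p ^ (n + 1)) hNn (dvd_mul_left _ _) (F := F)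
  obtain ⟨ι, hι⟩ := exists_emb C ψ (jc.comp e)
  -- automorphisms which are `1` modulo `M p^(m+1)`
  have hInk : ∀ g : F ≃ₐ[ℚ] F, InH p M m n hmn g → ∀ x : k, g (ψ x) = ψ x := by
    intro g hg x
    refine fix_of_map_one dan φ ψ g ?_ x
    rw [← Tw_comp dam dMmn]
    unfold InH at hg
    rw [hg, map_one]
  have hlev := level (M := M) (n := n) hp2 (e.comp (algebraMap K' L')) ((ι.comp (algebraMap K L)).comp C.g) hm
  obtain ⟨hmn', hlev1, hlev2⟩ := hlev
  have hInK' : ∀ g : F ≃ₐ[ℚ] F, InH p M m n hmn g → ∀ x : K', g (ι (algebraMap K L (C.g x))) =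
      ι (algebraMap K L (C.g x)) := by
    intro g hg x
    refine hlev1 g ?_ x
    rw [Tw_comp, ← Tw_comp (dvd_mul_left (p ^ (m + 1)) M) dMmn]
    unfold InH at hg
    rw [hg, map_one]
  have hInK : ∀ g : F ≃ₐ[ℚ] F, InH p M m n hmn g → ∀ x : K, g (ι (algebraMap K L x)) =
      ι (algebraMap K L x) := by
    intro g hg x
    refine H68IM.gen_mem C.genK (RingHom.eqLocusField ((g : F ≃+* F).toRingHom.comp (ι.comp (algebraMap K L)))
      (ι.comp (algebraMap K L))) (H68IM.rat_mem _) ?_ x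
    rintro _ (⟨y, rfl⟩ | ⟨y, rfl⟩)
    · show g (ι (algebraMap K L (C.f y))) = ι (algebraMap K L (C.f y))
      rw [hι, hInk g hg]
    · exact hInK' g hg y
  -- `K` is in `Km`
  have hKm : ∀ x : K, ∃ y : Km, algebraMap Km F y = ι (algebraMap K L x) := by
    intro x
    refine (IsGalois.mem_range_algebraMap_iff_fixed (F := Km) (ι (algebraMap K L x))).2 fun g => ?_
    refine hInK (g.restrictScalars ℚ) ((inH_iff (Km := Km) hmn _).2 fun y => ?_) x
    exact g.commutes y
  choose f hf using hKm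
  have finj : Function.Injective (algebraMap Km F) := (algebraMap Km F).injective
  let fK : K →+* Km :=
    { toFun := f
      map_one' := finj (by rw [hf, map_one, map_one, map_one])
      map_zero' := finj (by rw [hf, map_zero, map_zero, map_zero])
      map_mul' := fun x y => finj (by rw [hf, map_mul, map_mul, map_mul, hf, hf])
      map_add' := fun x y => finj (by rw [hf, map_add, map_add, map_add, hf, hf]) }
  let iKKm : Algebra K Km := fK.toAlgebra
  let iLF : Algebra L F := ι.toAlgebra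
  let iKF : Algebra K F := (ι.comp (algebraMap K L)).toAlgebra
  have hKKmF : IsScalarTower K Km F := IsScalarTower.of_algebraMap_eq fun x => (hf x).symm
  have hKLF : IsScalarTower K L F := IsScalarTower.of_algebraMap_eq fun _ => rfl
  have hLF : ∀ x : L, algebraMap L F x = ι x := fun _ => rfl
  have hKF : ∀ x : K, algebraMap K F x = ι (algebraMap K L x) := fun _ => rfl
  have hGK : IsGalois K F := IsGalois.tower_top_of_isGalois ℚ K F
  have hcommQ : ∀ g h : F ≃ₐ[ℚ] F, g * h = h * g := by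
    intro g h
    apply (IsCyclotomicExtension.Rat.galEquivZMod (M * p ^ (n + 1)) F).injective
    rw [map_mul, map_mul]
    exact mul_comm _ _
  have hcomm : ∀ g h : F ≃ₐ[K] F, g * h = h * g := by
    intro g h
    have h1 := hcommQ (g.restrictScalars ℚ) (h.restrictScalars ℚ)
    ext x
    exact congrArg (fun t : F ≃ₐ[ℚ] F => t x) h1
  have hab : IsAbelianGalois K F := { is_comm := ⟨fun a b => hcomm a b⟩ }
  have habL : IsAbelianGalois K L := IsAbelianGalois.tower_bot K L F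
  have hGL : IsGalois K L := inferInstance
  refine ⟨iKKm, iKF, hKKmF, iLF, hKLF, ⟨hGK, hGL, hcomm, ?_⟩, fun x => hι x⟩
  intro h
  obtain ⟨g0, hg0⟩ := AlgEquiv.restrictNormalHom_surjective (F := K) (K₁ := L) F h
  have hg0' : ∀ x : L, g0 (ι x) = ι (h x) := by
    intro x
    rw [← hg0]
    exact (AlgEquiv.restrictNormal_commutes g0 L x).symm
  -- the order of `h`
  have hcard : Nat.card (L ≃ₐ[K] L) = p ^ i := by
    rw [← hi]
    exact IsGalois.card_aut_eq_finrank K L
  have hpow : h ^ (p ^ i) = 1 := by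
    rw [← hcard]
    exact pow_card_eq_one'
  have hex : ∃ c : ℕ, h ^ ((p - 1) * c) = h := by
    rcases Nat.eq_zero_or_pos i with h0 | h0
    · refine ⟨0, ?_⟩
      rw [h0, pow_zero, pow_one] at hpow
      rw [hpow, one_pow]
    · have hco : Nat.Coprime (p - 1) (p ^ i) := by
        refine Nat.Coprime.pow_right _ ?_
        have h1 : Nat.Coprime (p - 1) (p - 1 + 1) := by simp
        have h2 : p - 1 + 1 = p := Nat.succ_pred_prime hp
        rwa [h2] at h1
      have h1 : 1 < p ^ i := Nat.one_lt_pow h0.ne' hp.one_lt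
      obtain ⟨c, -, hc⟩ := Nat.exists_mul_mod_eq_one_of_coprime hco h1
      refine ⟨c, ?_⟩
      have h2 := Nat.div_add_mod ((p - 1) * c) (p ^ i)
      rw [hc] at h2
      rw [← h2, pow_add, pow_mul, hpow, one_pow, one_mul, pow_one]
  obtain ⟨c, hc⟩ := hex
  have hcop : Nat.Coprime M (p ^ (n + 1)) := Nat.Coprime.pow_right _ hpM.symm
  have hcopm : Nat.Coprime M (p ^ (m + 1)) := Nat.Coprime.pow_right _ hpM.symm
  obtain ⟨gq, hgq⟩ : ∃ gq : F ≃ₐ[ℚ] F, gq = g0.restrictScalars ℚ := ⟨_, rfl⟩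
  have hgqx : ∀ x : F, gq x = g0 x := fun x => by rw [hgq]; rfl
  have hgK : ∀ x : K, gq (ι (algebraMap K L x)) = ι (algebraMap K L x) := by
    intro x
    rw [hgqx]
    exact g0.commutes x
  have hv := hlev2 gq (fun x => hgK (C.g x))
  obtain ⟨v, hvdef⟩ : ∃ v, v = ZMod.unitsMap (dvd_mul_left (p ^ (n + 1)) M) (kp (M * p ^ (n + 1)) gq) :=
    ⟨_, rfl⟩
  rw [← hvdef] at hv
  obtain ⟨t, ht1, ht2⟩ := Tw_exists hcop (v ^ ((p - 1) * c))
  obtain ⟨g', hg'⟩ : ∃ g' : F ≃ₐ[ℚ] F, kp (M * p ^ (n + 1)) g' = t :=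
    (IsCyclotomicExtension.Rat.galEquivZMod (M * p ^ (n + 1)) F).surjective t
  have hIn : InH p M m n hmn g' := by
    unfold InH
    rw [hg']
    refine Tw_inj hcopm ?_ ?_
    · rw [Tw_comp, map_one]
      exact ht1
    · rw [Tw_comp, map_one, ← Tw_comp dmn (dvd_mul_left (p ^ (n + 1)) M), ht2, pow_mul, map_pow, hv,
        one_pow]
  obtain ⟨w, hw⟩ : ∃ w : F ≃ₐ[ℚ] F, w = g'⁻¹ * gq ^ ((p - 1) * c) := ⟨_, rfl⟩
  have hw1 : ZMod.unitsMap (dvd_mul_left (p ^ (n + 1)) M) (kp (M * p ^ (n + 1)) w) = 1 := by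
    have h1 : kp (M * p ^ (n + 1)) w = (kp (M * p ^ (n + 1)) g')⁻¹ * (kp (M * p ^ (n + 1)) gq) ^ ((p - 1) * c) := by
      rw [hw]
      show IsCyclotomicExtension.Rat.galEquivZMod (M * p ^ (n + 1)) F (g'⁻¹ * gq ^ ((p - 1) * c)) = _
      rw [map_mul, map_inv, map_pow]
    rw [h1, map_mul, map_inv, map_pow, hg', ht2, ← hvdef, inv_mul_cancel]
  have hpowx : ∀ (j : ℕ) (x : L), (gq ^ j) (ι x) = ι ((h ^ j) x) := by
    intro j
    induction j with
    | zero => intro x; rw [pow_zero, pow_zero, AlgEquiv.one_apply, AlgEquiv.one_apply]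
    | succ j ih =>
      intro x
      rw [pow_succ, pow_succ, AlgEquiv.mul_apply, AlgEquiv.mul_apply, hgqx, hg0', ih]
  have hwL : ∀ x : L, w (ι x) = ι x := by
    intro x
    refine H68IM.gen_mem C.genL (RingHom.eqLocusField ((w : F ≃+* F).toRingHom.comp ι) ι)
      (H68IM.rat_mem _) ?_ x
    rintro _ (⟨y, rfl⟩ | ⟨y, rfl⟩)
    · show w (ι (algebraMap K L (C.f y))) = ι (algebraMap K L (C.f y))
      rw [hw, AlgEquiv.mul_apply, hpowx, AlgEquiv.commutes, hι]
      have h1 := hInk g' hIn y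
      nth_rewrite 1 [← h1]
      rw [← AlgEquiv.mul_apply, inv_mul_cancel, AlgEquiv.one_apply]
    · exact fix_of_map_one (dvd_mul_left (p ^ (n + 1)) M) e (ι.comp C.h) w hw1 y
  obtain ⟨g, hg⟩ := Tw_aut (Km := Km) g' ((inH_iff (Km := Km) hmn g').1 hIn)
  refine ⟨g, fun x => ?_⟩
  rw [hg, hLF, hLF]
  have h1 := hwL x
  rw [hw, AlgEquiv.mul_apply, hpowx, hc] at h1
  rw [← h1, ← AlgEquiv.mul_apply, mul_inv_cancel, AlgEquiv.one_apply]

theorem exists_sn {p M a m n : ℕ} [Fact p.Prime] [NeZero M] (hp2 : p ≠ 2) (hpM : p.Coprime M) (ham : a ≤ m)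
    {k K' L' K L F : Type} [Field k] [NumberField k] [Field K'] [NumberField K'] [Field L'] [NumberField L']
    [Field K] [NumberField K] [Field L] [NumberField L] [Field F] [NumberField F] [Algebra K' L'] [Algebra K L]
    [IsCyclotomicExtension {M * p ^ (n + 1)} ℚ F] (C : Comp k K' L' K L)
    (φ : k →+* CyclotomicField (M * p ^ (a + 1)) ℚ) (e : L' →+* CyclotomicField (p ^ (n + 1)) ℚ)
    (hm : padicValNat p (Module.finrank ℚ K') = m) {i : ℕ} (hi : Module.finrank K L = p ^ i) (ψ : k →+* F) :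
    ∃ (_ : m ≤ n) (Km : Type) (_ : Field Km) (_ : NumberField Km)
      (_ : IsCyclotomicExtension {M * p ^ (m + 1)} ℚ Km) (_ : Algebra K Km) (_ : Algebra Km F)
      (_ : Algebra K F) (_ : IsScalarTower K Km F) (_ : Algebra L F) (_ : IsScalarTower K L F),
      SN K Km L F ∧ ∀ x : k, algebraMap L F (algebraMap K L (C.f x)) = ψ x := by
  have hp : p.Prime := Fact.out
  have hM0 : M ≠ 0 := NeZero.ne M
  have hNm : M * p ^ (m + 1) ≠ 0 := mul_ne_zero hM0 (pow_ne_zero _ hp.ne_zero)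
  have hNn : M * p ^ (n + 1) ≠ 0 := mul_ne_zero hM0 (pow_ne_zero _ hp.ne_zero)
  have hne2 : NeZero (M * p ^ (m + 1)) := ⟨hNm⟩
  obtain ⟨jc⟩ := Tw_cyc (N := M * p ^ (n + 1)) (d := p ^ (n + 1)) hNn (dvd_mul_left _ _) (F := F)
  obtain ⟨hmn, -⟩ := level (M := M) (n := n) hp2 (e.comp (algebraMap K' L'))
    ((jc.comp e).comp (algebraMap K' L')) hm
  have dMmn : M * p ^ (m + 1) ∣ M * p ^ (n + 1) :=
    Nat.mul_dvd_mul_left M (pow_dvd_pow p (Nat.succ_le_succ hmn))
  obtain ⟨jm⟩ := Tw_cyc (N := M * p ^ (n + 1)) (d := M * p ^ (m + 1)) hNn dMmn (F := F)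
  have hcyc : IsCyclotomicExtension {M * p ^ (m + 1)} ℚ (CyclotomicField (M * p ^ (m + 1)) ℚ) :=
    CyclotomicField.isCyclotomicExtension _ _
  have hNF : NumberField (CyclotomicField (M * p ^ (m + 1)) ℚ) :=
    IsCyclotomicExtension.numberField {M * p ^ (m + 1)} ℚ _
  let iKmF : Algebra (CyclotomicField (M * p ^ (m + 1)) ℚ) F := jm.toAlgebra
  obtain ⟨i1, i2, i3, i4, i5, h1, h2⟩ := Tw_main (Km := CyclotomicField (M * p ^ (m + 1)) ℚ) hp2 hpM ham hmn
    C φ e hm hi ψ
  exact ⟨hmn, CyclotomicField (M * p ^ (m + 1)) ℚ, inferInstance, hNF, hcyc, i1, iKmF, i2, i3, i4, i5, h1, h2⟩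

end H78N
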